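import Mathlib

set_option autoImplicit false

/-!
# Tate classes on products of log Tate curves: definitions and targets

The first cohomology of a log Tate curve over a log point has a basis `e_0, e_1` (written
`false, true`), and an element `g` of the log fundamental group acts by `g e_0 = e_0` and
`g e_1 = χ(g)⁻¹ (e_1 + κ(g) e_0)`, where `χ` is the cyclotomic character and `κ` the Kummer cocycle
of the period. A tensor `T` of degree `n` on a product of such curves is a function on the words of
length `n`; the letter at the place `s` belongs to the curve of colour `c s`.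
-/

namespace Pool.Agent.LTC

open Finset
open scoped BigOperators

/-! ## Definitions -/

/-- the matrix of `e_0 ↦ e_0`, `e_1 ↦ x (e_1 + k e_0)`; the first index is the row -/
def rep {F : Type} [Field F] (x k : F) : Bool → Bool → F
  | false, false => 1
  | false, true => x * k
  | true, false => 0
  | true, true => x

/-- the action on tensors: at the place `s` the matrix `rep x (k s)` -/
def act {F : Type} [Field F] {n : ℕ} (x : F) (k : Fin n → F) (T : (Fin n → Bool) → F) :
    (Fin n → Bool) → F :=
  fun w => ∑ y : Fin n → Bool, (∏ s, rep x (k s) (w s) (y s)) * T y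

/-- a Kummer cocycle with values in the twist by the character `χ` -/
def IsCocycle {F G : Type} [Field F] [Group G] (χ : G →* Fˣ) (κ : G → F) : Prop :=
  ∀ g h : G, κ (g * h) = κ g + χ g * κ h

/-- `T` is a tensor of degree `n = 2 r`, fixed by the subgroup `H` after `r` Tate twists -/
def IsTateTensor {F G : Type} [Field F] [Group G] (χ : G →* Fˣ) {t n : ℕ} (κ : Fin t → G → F)
    (c : Fin n → Fin t) (H : Subgroup G) (r : ℕ) (T : (Fin n → Bool) → F) : Prop :=
  n = 2 * r ∧ ∀ g ∈ H, act ((χ g : F)⁻¹) (fun s => κ (c s) g) T = fun w => ((χ g : F)⁻¹) ^ r * T w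

/-- perfect matchings of the places which respect the colours -/
def IsMatching {t n : ℕ} (c : Fin n → Fin t) (m : Fin n → Fin n) : Prop :=
  ∀ s, m (m s) = s ∧ m s ≠ s ∧ c (m s) = c s

/-- the alternating form on two letters -/
def alt {F : Type} [Field F] : Bool → Bool → F
  | true, false => 1
  | false, true => -1
  | _, _ => 0

/-- the product of the alternating forms of the pairs of a matching: a product of classes of
codimension one -/
def pairing {F : Type} [Field F] {n : ℕ} (m : Fin n → Fin n) : (Fin n → Bool) → F :=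
  fun w => ∏ s ∈ univ.filter (fun s => s < m s), alt (w s) (w (m s))

/-- the span of the products of pairings: the tensors generated in codimension one -/
def divisorSpan (F : Type) [Field F] {t n : ℕ} (c : Fin n → Fin t) :
    Submodule F ((Fin n → Bool) → F) :=
  Submodule.span F {P | ∃ m : Fin n → Fin n, IsMatching c m ∧ P = pairing m}

/-- the number of letters `true` of colour `i` -/
def tru {t n : ℕ} (c : Fin n → Fin t) (i : Fin t) (w : Fin n → Bool) : ℕ :=
  (univ.filter (fun s => c s = i ∧ w s = true)).card

/-- the number of letters `false` of colour `i` -/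
def fls {t n : ℕ} (c : Fin n → Fin t) (i : Fin t) (w : Fin n → Bool) : ℕ :=
  (univ.filter (fun s => c s = i ∧ w s = false)).card

/-- lowering operator with the weights `u s` at the places `s` -/
def low {F : Type} [Field F] {n : ℕ} (u : Fin n → F) (T : (Fin n → Bool) → F) :
    (Fin n → Bool) → F :=
  fun w => ∑ s ∈ univ.filter (fun s => w s = false), u s * T (Function.update w s true)

/-- raising operator with the weights `u s` at the places `s` -/
def rai {F : Type} [Field F] {n : ℕ} (u : Fin n → F) (T : (Fin n → Bool) → F) :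
    (Fin n → Bool) → F :=
  fun w => ∑ s ∈ univ.filter (fun s => w s = true), u s * T (Function.update w s false)

/-- words with as many letters `true` as letters `false` -/
def Balanced {n : ℕ} (w : Fin n → Bool) : Prop :=
  (univ.filter (fun s => w s = true)).card = (univ.filter (fun s => w s = false)).card

/-! ## Targets -/

/-- LOG: from the unipotent elements to the lowering operators. -/
def T_LOG : Prop := ∀ (F : Type) [Field F] [CharZero F] (n : ℕ) (k : Fin n → F)
  (T : (Fin n → Bool) → F), (∀ m : ℕ, act 1 (fun s => m * k s) T = T) → low k T = 0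

/-- ACT: composition, commutation with the lowering operators and invariance of the pairings. -/
def T_ACT : Prop := ∀ (F : Type) [Field F] (n : ℕ),
  (∀ (x y : F) (k l : Fin n → F) (T : (Fin n → Bool) → F), x ≠ 0 →
    act x k (act y l T) = act (x * y) (fun s => k s + x⁻¹ * l s) T) ∧
  (∀ (k u : Fin n → F) (T : (Fin n → Bool) → F), low u (act 1 k T) = act 1 k (low u T)) ∧
  (∀ (x : F) (T : (Fin n → Bool) → F), act x (fun _ => 0) T =
    fun w => x ^ (univ.filter (fun s => w s = true)).card * T w) ∧
  (∀ (t : ℕ) (c : Fin n → Fin t) (k : Fin t → F) (P : (Fin n → Bool) → F),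
    P ∈ divisorSpan F c → act 1 (fun s => k (c s)) P = P)

/-- SLA: the representation theory of sl2, weights at the places. -/
def T_SLA : Prop := ∀ (F : Type) [Field F] [CharZero F] (n : ℕ) (u : Fin n → F),
  (∀ s, u s ≠ 0) → ∀ T : (Fin n → Bool) → F, (∀ w, T w ≠ 0 → Balanced w) → low u T = 0 →
    rai (fun s => (u s)⁻¹) T = 0

/-- SLB: a tensor of one multidegree which is killed by the raising operator of the colour `i` has
at least as many letters `true` as letters `false` of the colour `i`, and if the numbers are equal it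
is killed by the lowering operator. -/
def T_SLB : Prop := ∀ (F : Type) [Field F] [CharZero F] (t n : ℕ) (c : Fin n → Fin t) (i : Fin t)
  (a b : ℕ) (T : (Fin n → Bool) → F), (∀ w, T w ≠ 0 → tru c i w = a ∧ fls c i w = b) → T ≠ 0 →
  rai (fun s => if c s = i then 1 else 0) T = 0 →
    b ≤ a ∧ (a = b → low (fun s => if c s = i then 1 else 0) T = 0)

/-- SEP: the functions `1 / u i` on a space with pairwise independent coordinates are
linearly independent. -/
def T_SEP : Prop := ∀ (F : Type) [Field F] [CharZero F] (t : ℕ) (U : Submodule F (Fin t → F)),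
  (∀ i, ∃ u ∈ U, u i ≠ 0) → (∀ i j, i ≠ j → ∃ u ∈ U, u i = 0 ∧ u j ≠ 0) →
  ∀ w : Fin t → F, (∀ u ∈ U, (∀ i, u i ≠ 0) → ∑ i, (u i)⁻¹ * w i = 0) → w = 0

/-- PRB: the span of a set of vectors with pairwise independent coordinates. -/
def T_PRB : Prop := ∀ (F : Type) [Field F] (t : ℕ) (S : Set (Fin t → F)),
  (∀ i, ∃ v ∈ S, v i ≠ 0) →
  (∀ i j, i ≠ j → ∀ a b : F, (∀ v ∈ S, a * v i + b * v j = 0) → a = 0 ∧ b = 0) →
    (∀ i, ∃ u ∈ Submodule.span F S, u i ≠ 0) ∧
    (∀ i j, i ≠ j → ∃ u ∈ Submodule.span F S, u i = 0 ∧ u j ≠ 0)

/-- partial matchings: colour preserving involutions, fixed places are allowed -/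
def IsPartial {t n : ℕ} (c : Fin n → Fin t) (m : Fin n → Fin n) : Prop :=
  ∀ s, m (m s) = s ∧ c (m s) = c s

/-- the pairing of a partial matching, with the letter `false` at the fixed places -/
def pairingP {F : Type} [Field F] {n : ℕ} (m : Fin n → Fin n) : (Fin n → Bool) → F :=
  fun w => (∏ s ∈ univ.filter (fun s => s < m s), alt (w s) (w (m s))) *
    ∏ s ∈ univ.filter (fun s => s = m s), if w s = false then 1 else 0

/-- FUNDG: the kernels of all the lowering operators are spanned by the products for partial
matchings. -/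
def T_FUNDG : Prop := ∀ (F : Type) [Field F] [CharZero F] (t n : ℕ) (c : Fin n → Fin t)
  (a b : Fin t → ℕ) (T : (Fin n → Bool) → F),
  (∀ w, T w ≠ 0 → ∀ i, tru c i w = a i ∧ fls c i w = b i) →
  (∀ i, low (fun s => if c s = i then 1 else 0) T = 0) →
  T ∈ Submodule.span F {P : (Fin n → Bool) → F | ∃ m : Fin n → Fin n, IsPartial c m ∧
    (∀ i, (univ.filter (fun s => c s = i ∧ m s = s)).card + a i = b i) ∧ P = pairingP m}

/-- FUND: the first fundamental theorem for a product of groups SL2. -/
def T_FUND : Prop := ∀ (F : Type) [Field F] [CharZero F] (t n : ℕ) (c : Fin n → Fin t)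
  (T : (Fin n → Bool) → F), (∀ w, T w ≠ 0 → ∀ i, tru c i w = fls c i w) →
  (∀ i, low (fun s => if c s = i then 1 else 0) T = 0) → T ∈ divisorSpan F c

/-- MAIN: Tate tensors on products of log Tate curves with pairwise independent periods. -/
def T_MAIN : Prop := ∀ (F G : Type) [Field F] [CharZero F] [Group G] (χ : G →* Fˣ) (t n r : ℕ)
  (κ : Fin t → G → F), (∀ i, IsCocycle χ (κ i)) → ∀ H : Subgroup G,
  (∃ g ∈ H, ∀ N : ℕ, 0 < N → χ g ^ N ≠ 1) →
  (∀ i, ∃ g ∈ H, χ g = 1 ∧ κ i g ≠ 0) →
  (∀ i j, i ≠ j → ∀ a b : F, (∀ g ∈ H, χ g = 1 → a * κ i g + b * κ j g = 0) → a = 0 ∧ b = 0) →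
  ∀ (c : Fin n → Fin t) (T : (Fin n → Bool) → F), IsTateTensor χ κ c H r T → T ∈ divisorSpan F c

end Pool.Agent.LTC
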