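import Mathlib
import Pool.Agent.LTC.Targets

set_option autoImplicit false

/-!
# ACT: composition, commutation with the lowering operators, invariance of the pairings
-/

namespace Pool.Agent.LTC

open Finset
open scoped BigOperators

namespace ACT_

variable {F : Type} [Field F] {n : ℕ}

/-- the product of two matrices `rep` -/
theorem rep_mul (x y k l : F) (hx : x ≠ 0) (a b : Bool) :
    ∑ c : Bool, rep x k a c * rep y l c b = rep (x * y) (k + x⁻¹ * l) a b := by
  rw [Fintype.sum_bool]
  cases a <;> cases b <;> simp only [rep] <;> field_simp <;> ring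

theorem comp (x y : F) (k l : Fin n → F) (T : (Fin n → Bool) → F) (hx : x ≠ 0) :
    act x k (act y l T) = act (x * y) (fun s => k s + x⁻¹ * l s) T := by
  funext w
  have h : ∀ b : Fin n → Bool,
      ∏ s, rep (x * y) (k s + x⁻¹ * l s) (w s) (b s) =
        ∑ a : Fin n → Bool, (∏ s, rep x (k s) (w s) (a s)) * ∏ s, rep y (l s) (a s) (b s) := by
    intro b
    have h1 : ∏ s, rep (x * y) (k s + x⁻¹ * l s) (w s) (b s) =
        ∏ s, ∑ c : Bool, rep x (k s) (w s) c * rep y (l s) c (b s) := by
      apply Finset.prod_congr rfl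
      intro s _
      exact (rep_mul x y (k s) (l s) hx (w s) (b s)).symm
    rw [h1, Fintype.prod_sum]
    apply Finset.sum_congr rfl
    intro a _
    rw [Finset.prod_mul_distrib]
  show ∑ a : Fin n → Bool, (∏ s, rep x (k s) (w s) (a s)) *
      (∑ b : Fin n → Bool, (∏ s, rep y (l s) (a s) (b s)) * T b) =
    ∑ b : Fin n → Bool, (∏ s, rep (x * y) (k s + x⁻¹ * l s) (w s) (b s)) * T b
  have h2 : ∀ a : Fin n → Bool, (∏ s, rep x (k s) (w s) (a s)) *
      (∑ b : Fin n → Bool, (∏ s, rep y (l s) (a s) (b s)) * T b) =
      ∑ b : Fin n → Bool, (∏ s, rep x (k s) (w s) (a s)) *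
        ((∏ s, rep y (l s) (a s) (b s)) * T b) := fun a => Finset.mul_sum _ _ _
  rw [Finset.sum_congr rfl (fun a _ => h2 a), Finset.sum_comm]
  apply Finset.sum_congr rfl
  intro b _
  rw [h b, Finset.sum_mul]
  apply Finset.sum_congr rfl
  intro a _
  ring

/-- the flip of the letter at the place `s` -/
def flip (s : Fin n) (y : Fin n → Bool) : Fin n → Bool := Function.update y s (!(y s))

theorem flip_flip (s : Fin n) (y : Fin n → Bool) : flip s (flip s y) = y := by
  unfold flip
  simp

theorem split (k : Fin n → F) (w y : Fin n → Bool) (s : Fin n) :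
    ∏ r, rep 1 (k r) (w r) (y r) =
      rep 1 (k s) (w s) (y s) * ∏ r ∈ univ.erase s, rep 1 (k r) (w r) (y r) :=
  (Finset.mul_prod_erase univ (fun r => rep 1 (k r) (w r) (y r)) (Finset.mem_univ s)).symm

theorem point (k : Fin n → F) (w z : Fin n → Bool) (s : Fin n) (t : F) :
    (if w s = false then (∏ r, rep 1 (k r) (Function.update w s true r) (z r)) * t else 0) =
      (∏ r, rep 1 (k r) (w r) (flip s z r)) * (if z s = true then t else 0) := by
  have e1 : ∏ r ∈ univ.erase s, rep 1 (k r) (Function.update w s true r) (z r) =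
      ∏ r ∈ univ.erase s, rep 1 (k r) (w r) (z r) := by
    apply Finset.prod_congr rfl
    intro r hr
    rw [Function.update_of_ne (Finset.ne_of_mem_erase hr)]
  have e2 : ∏ r ∈ univ.erase s, rep 1 (k r) (w r) (flip s z r) =
      ∏ r ∈ univ.erase s, rep 1 (k r) (w r) (z r) := by
    apply Finset.prod_congr rfl
    intro r hr
    unfold flip
    rw [Function.update_of_ne (Finset.ne_of_mem_erase hr)]
  rw [split k (Function.update w s true) z s, split k w (flip s z) s, e1, e2]
  have e3 : flip s z s = !(z s) := by
    unfold flip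
    simp
  rw [e3, Function.update_self]
  cases w s <;> cases z s <;> simp [rep]

theorem low_at (k : Fin n → F) (T : (Fin n → Bool) → F) (w : Fin n → Bool) (s : Fin n) :
    (if w s = false then act 1 k T (Function.update w s true) else 0) =
      ∑ y : Fin n → Bool, (∏ r, rep 1 (k r) (w r) (y r)) *
        (if y s = false then T (Function.update y s true) else 0) := by
  have h1 : (if w s = false then act 1 k T (Function.update w s true) else 0) =
      ∑ z : Fin n → Bool, (if w s = false then
        (∏ r, rep 1 (k r) (Function.update w s true r) (z r)) * T z else 0) := by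
    by_cases hw : w s = false
    · simp only [hw, if_true]
      rfl
    · simp only [hw, if_false]
      simp
  rw [h1]
  apply Fintype.sum_equiv (Function.Involutive.toPerm (flip s) (flip_flip s))
  intro z
  rw [point k w z s (T z)]
  have h2 : (Function.Involutive.toPerm (flip s) (flip_flip s)) z = flip s z := rfl
  rw [h2]
  have e3 : flip s z s = !(z s) := by
    unfold flip
    simp
  rw [e3]
  by_cases hz : z s = true
  · have h4 : Function.update (flip s z) s true = z := by
      unfold flip
      rw [Function.update_idem, ← hz, Function.update_eq_self]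
    rw [h4, hz]
    simp
  · have hz' : z s = false := by
      cases h : z s
      · rfl
      · exact absurd h hz
    rw [hz']
    simp

theorem low_eq (u : Fin n → F) (T : (Fin n → Bool) → F) (w : Fin n → Bool) :
    low u T w = ∑ s, u s * (if w s = false then T (Function.update w s true) else 0) := by
  unfold low
  rw [Finset.sum_filter]
  apply Finset.sum_congr rfl
  intro s _
  by_cases h : w s = false
  · simp [h]
  · simp [h]

theorem low_act (k u : Fin n → F) (T : (Fin n → Bool) → F) :
    low u (act 1 k T) = act 1 k (low u T) := by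
  funext w
  rw [low_eq]
  have h1 : act 1 k (low u T) w = ∑ y : Fin n → Bool, (∏ r, rep 1 (k r) (w r) (y r)) *
      ∑ s, u s * (if y s = false then T (Function.update y s true) else 0) := by
    show ∑ y : Fin n → Bool, (∏ r, rep 1 (k r) (w r) (y r)) * low u T y = _
    apply Finset.sum_congr rfl
    intro y _
    rw [low_eq]
  rw [h1]
  have h2 : ∀ y : Fin n → Bool, (∏ r, rep 1 (k r) (w r) (y r)) *
      ∑ s, u s * (if y s = false then T (Function.update y s true) else 0) =
      ∑ s, u s * ((∏ r, rep 1 (k r) (w r) (y r)) *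
        (if y s = false then T (Function.update y s true) else 0)) := by
    intro y
    rw [Finset.mul_sum]
    apply Finset.sum_congr rfl
    intro s _
    ring
  rw [Finset.sum_congr rfl (fun y _ => h2 y), Finset.sum_comm]
  apply Finset.sum_congr rfl
  intro s _
  rw [← Finset.mul_sum, low_at k T w s]

theorem rep_zero (x : F) (a b : Bool) :
    rep x 0 a b = if a = b then (if a = true then x else 1) else 0 := by
  cases a <;> cases b <;> simp [rep]

theorem diag (x : F) (T : (Fin n → Bool) → F) : act x (fun _ => 0) T =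
    fun w => x ^ (univ.filter (fun s => w s = true)).card * T w := by
  funext w
  show ∑ y : Fin n → Bool, (∏ s, rep x 0 (w s) (y s)) * T y = _
  rw [Finset.sum_eq_single w]
  · have h1 : ∏ s, rep x 0 (w s) (w s) = ∏ s, (if w s = true then x else 1) := by
      apply Finset.prod_congr rfl
      intro s _
      rw [rep_zero]
      simp
    rw [h1, Finset.prod_ite, Finset.prod_const, Finset.prod_const_one, mul_one]
  · intro y _ hy
    have h2 : ∃ s, w s ≠ y s := by
      by_contra hcon
      push Not at hcon
      exact hy (funext fun s => (hcon s).symm)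
    obtain ⟨s, hs⟩ := h2
    have h3 : ∏ s, rep x 0 (w s) (y s) = 0 := by
      apply Finset.prod_eq_zero (Finset.mem_univ s)
      rw [rep_zero, if_neg hs]
    rw [h3, zero_mul]
  · intro h
    exact absurd (Finset.mem_univ w) h

/-! ## The pairings -/

theorem det_one (k : F) (a b : Bool) :
    ∑ p : Bool × Bool, rep 1 k a p.1 * rep 1 k b p.2 * alt p.1 p.2 = alt a b := by
  rw [Fintype.sum_prod_type]
  simp only [Fintype.sum_bool]
  cases a <;> cases b <;> simp [rep, alt]

/-- words and the pairs of letters at the pairs of places -/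
def pairs (m : Fin n → Fin n) (hm : ∀ s, m (m s) = s ∧ m s ≠ s) :
    (Fin n → Bool) ≃ ({s : Fin n // s < m s} → Bool × Bool) where
  toFun y := fun s => (y s.1, y (m s.1))
  invFun g := fun s => if h : s < m s then (g ⟨s, h⟩).1 else
    (g ⟨m s, by
      have h1 := (hm s).1
      have h2 := (hm s).2
      rw [h1]
      exact lt_of_le_of_ne (not_lt.mp h) h2⟩).2
  left_inv y := by
    funext s
    by_cases h : s < m s
    · simp only [h, dif_pos]
    · simp only [h, dif_neg, not_false_iff]
      rw [(hm s).1]
  right_inv g := by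
    funext s
    obtain ⟨s, hs⟩ := s
    have h1 : ¬ (m s < m (m s)) := by
      rw [(hm s).1]
      exact not_lt.mpr hs.le
    apply Prod.ext
    · show (if h : s < m s then (g ⟨s, h⟩).1 else _) = (g ⟨s, hs⟩).1
      rw [dif_pos hs]
    · show (if h : m s < m (m s) then (g ⟨m s, h⟩).1 else (g ⟨m (m s), _⟩).2) = (g ⟨s, hs⟩).2
      rw [dif_neg h1]
      have h2 : ∀ (z : Fin n) (hz : z < m z), z = s → (g ⟨z, hz⟩).2 = (g ⟨s, hs⟩).2 := by
        intro z hz hzs
        subst hzs
        rfl
      exact h2 _ _ (hm s).1

/-- a product over all places as a product over the pairs -/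
theorem prod_pairs (m : Fin n → Fin n) (hm : ∀ s, m (m s) = s ∧ m s ≠ s) (f : Fin n → F) :
    ∏ s, f s = ∏ s : {s : Fin n // s < m s}, f s.1 * f (m s.1) := by
  rw [Finset.prod_mul_distrib]
  have h1 : ∏ s : {s : Fin n // s < m s}, f s.1 = ∏ s ∈ univ.filter (fun s => s < m s), f s :=
    (Finset.prod_subtype (univ.filter (fun s => s < m s)) (fun s => by simp) f).symm
  have h2 : ∏ s : {s : Fin n // s < m s}, f (m s.1) =
      ∏ s ∈ univ.filter (fun s => s < m s), f (m s) :=
    (Finset.prod_subtype (univ.filter (fun s => s < m s)) (fun s => by simp)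
      (fun s => f (m s))).symm
  have h3 : ∏ s ∈ univ.filter (fun s => s < m s), f (m s) =
      ∏ s ∈ univ.filter (fun s => ¬ s < m s), f s := by
    apply Finset.prod_bij (fun s _ => m s)
    · intro s hs
      simp only [Finset.mem_filter, Finset.mem_univ, true_and] at hs ⊢
      rw [(hm s).1]
      exact not_lt.mpr hs.le
    · intro a _ b _ hab
      have := congrArg m hab
      rwa [(hm a).1, (hm b).1] at this
    · intro b hb
      simp only [Finset.mem_filter, Finset.mem_univ, true_and] at hb
      refine ⟨m b, ?_, (hm b).1⟩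
      simp only [Finset.mem_filter, Finset.mem_univ, true_and]
      rw [(hm b).1]
      exact lt_of_le_of_ne (not_lt.mp hb) (hm b).2
    · intro s _
      rfl
  rw [h1, h2, h3]
  exact (Finset.prod_filter_mul_prod_filter_not univ (fun s => s < m s) f).symm

theorem pairing_inv {t : ℕ} (c : Fin n → Fin t) (k : Fin t → F) (m : Fin n → Fin n)
    (hm : IsMatching c m) : act 1 (fun s => k (c s)) (pairing m : (Fin n → Bool) → F) =
      pairing m := by
  have hm' : ∀ s, m (m s) = s ∧ m s ≠ s := fun s => ⟨(hm s).1, (hm s).2.1⟩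
  have hp : ∀ y : Fin n → Bool, (pairing m : (Fin n → Bool) → F) y =
      ∏ s : {s : Fin n // s < m s}, alt (y s.1) (y (m s.1)) := by
    intro y
    exact Finset.prod_subtype (univ.filter (fun s => s < m s)) (fun s => by simp)
      (fun s => alt (y s) (y (m s)))
  funext w
  show ∑ y : Fin n → Bool, (∏ s, rep 1 (k (c s)) (w s) (y s)) *
    (pairing m : (Fin n → Bool) → F) y = pairing m w
  have h1 : ∀ y : Fin n → Bool, (∏ s, rep 1 (k (c s)) (w s) (y s)) *
      (pairing m : (Fin n → Bool) → F) y =
      ∏ s : {s : Fin n // s < m s}, rep 1 (k (c s.1)) (w s.1) (y s.1) *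
        rep 1 (k (c s.1)) (w (m s.1)) (y (m s.1)) * alt (y s.1) (y (m s.1)) := by
    intro y
    rw [hp y, prod_pairs m hm' (fun s => rep 1 (k (c s)) (w s) (y s)), ← Finset.prod_mul_distrib]
    apply Finset.prod_congr rfl
    intro s _
    rw [(hm s.1).2.2]
  rw [Finset.sum_congr rfl (fun y _ => h1 y), hp w]
  have h2 : ∑ y : Fin n → Bool, ∏ s : {s : Fin n // s < m s},
      rep 1 (k (c s.1)) (w s.1) (y s.1) *
        rep 1 (k (c s.1)) (w (m s.1)) (y (m s.1)) * (alt (y s.1) (y (m s.1)) : F) =
      ∑ g : {s : Fin n // s < m s} → Bool × Bool, ∏ s : {s : Fin n // s < m s},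
        rep 1 (k (c s.1)) (w s.1) (g s).1 *
        rep 1 (k (c s.1)) (w (m s.1)) (g s).2 * (alt (g s).1 (g s).2 : F) :=
    Fintype.sum_equiv (pairs m hm') _ _ (fun y => rfl)
  rw [h2, ← Fintype.prod_sum (fun (s : {s : Fin n // s < m s}) (p : Bool × Bool) =>
    rep 1 (k (c s.1)) (w s.1) p.1 * rep 1 (k (c s.1)) (w (m s.1)) p.2 * (alt p.1 p.2 : F))]
  apply Finset.prod_congr rfl
  intro s _
  exact det_one (k (c s.1)) (w s.1) (w (m s.1))

theorem act_add (x : F) (k : Fin n → F) (S T : (Fin n → Bool) → F) :
    act x k (S + T) = act x k S + act x k T := by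
  funext w
  show ∑ y : Fin n → Bool, (∏ s, rep x (k s) (w s) (y s)) * (S y + T y) =
    ∑ y : Fin n → Bool, (∏ s, rep x (k s) (w s) (y s)) * S y +
    ∑ y : Fin n → Bool, (∏ s, rep x (k s) (w s) (y s)) * T y
  rw [← Finset.sum_add_distrib]
  apply Finset.sum_congr rfl
  intro y _
  ring

theorem act_smul (x : F) (k : Fin n → F) (a : F) (T : (Fin n → Bool) → F) :
    act x k (a • T) = a • act x k T := by
  funext w
  show ∑ y : Fin n → Bool, (∏ s, rep x (k s) (w s) (y s)) * (a * T y) =
    a * ∑ y : Fin n → Bool, (∏ s, rep x (k s) (w s) (y s)) * T y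
  rw [Finset.mul_sum]
  apply Finset.sum_congr rfl
  intro y _
  ring

theorem act_zero (x : F) (k : Fin n → F) :
    act x k (0 : (Fin n → Bool) → F) = 0 := by
  funext w
  show ∑ y : Fin n → Bool, (∏ s, rep x (k s) (w s) (y s)) * (0 : F) = 0
  simp

theorem span_inv {t : ℕ} (c : Fin n → Fin t) (k : Fin t → F) (P : (Fin n → Bool) → F)
    (hP : P ∈ divisorSpan F c) : act 1 (fun s => k (c s)) P = P := by
  unfold divisorSpan at hP
  induction hP using Submodule.span_induction with
  | mem x hx =>
    obtain ⟨m, hm, rfl⟩ := hx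
    exact pairing_inv c k m hm
  | zero => exact act_zero _ _
  | add x y _ _ hx hy => rw [act_add, hx, hy]
  | smul a x _ hx => rw [act_smul, hx]

end ACT_

theorem p_ACT : T_ACT := by
  intro F _ n
  refine ⟨?_, ?_, ?_, ?_⟩
  · intro x y k l T hx
    exact ACT_.comp x y k l T hx
  · intro k u T
    exact ACT_.low_act k u T
  · intro x T
    exact ACT_.diag x T
  · intro t c k P hP
    exact ACT_.span_inv c k P hP

end Pool.Agent.LTC
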