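import Pool.Agent.LTC.Targets

set_option autoImplicit false

/-!
# The first fundamental theorem for a product of groups SL2, by induction on the number of places
-/

namespace Pool.Agent.LTC

open Finset
open scoped BigOperators

namespace FUND_

variable {F : Type} [Field F]

/-- lowering operator as a linear map -/
def lowL {n : ℕ} (u : Fin n → F) : ((Fin n → Bool) → F) →ₗ[F] ((Fin n → Bool) → F) where
  toFun := low u
  map_add' T T' := by
    funext w
    simp only [low, Pi.add_apply, mul_add, sum_add_distrib]
  map_smul' x T := by
    funext w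
    simp only [low, Pi.smul_apply, smul_eq_mul, RingHom.id_apply, mul_sum]
    exact sum_congr rfl fun s _ => by ring

/-- restriction to the words with first letter `x` -/
def hd {n : ℕ} (x : Bool) : ((Fin (n + 1) → Bool) → F) →ₗ[F] ((Fin n → Bool) → F) where
  toFun T w := T (Fin.cons x w)
  map_add' _ _ := rfl
  map_smul' _ _ := rfl

/-- extension by zero from the words with first letter `false` -/
def ext0 {n : ℕ} : ((Fin n → Bool) → F) →ₗ[F] ((Fin (n + 1) → Bool) → F) where
  toFun T w := if w 0 = false then T (Fin.tail w) else 0
  map_add' T T' := by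
    funext w
    by_cases h : w 0 = false <;> simp [h]
  map_smul' x T := by
    funext w
    by_cases h : w 0 = false <;> simp [h]

theorem eq_of_hd {n : ℕ} {T T' : (Fin (n + 1) → Bool) → F} (h1 : hd true T = hd true T')
    (h0 : hd false T = hd false T') : T = T' := by
  funext w
  rw [← Fin.cons_self_tail w]
  cases w 0
  · exact congrFun h0 (Fin.tail w)
  · exact congrFun h1 (Fin.tail w)

theorem hd_true_low {n : ℕ} (u : Fin (n + 1) → F) (T : (Fin (n + 1) → Bool) → F) :
    hd true (lowL u T) = lowL (fun s => u s.succ) (hd true T) := by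
  funext w
  change low u T (Fin.cons true w) = low (fun s => u s.succ) (fun w => T (Fin.cons true w)) w
  unfold low
  rw [sum_filter, sum_filter, Fin.sum_univ_succ]
  simp only [Fin.cons_zero, Fin.cons_succ, Bool.true_eq_false, if_false, zero_add]
  refine sum_congr rfl fun s _ => ?_
  rw [← Fin.cons_update]

theorem hd_false_low {n : ℕ} (u : Fin (n + 1) → F) (T : (Fin (n + 1) → Bool) → F) :
    hd false (lowL u T) = u 0 • hd true T + lowL (fun s => u s.succ) (hd false T) := by
  funext w
  change low u T (Fin.cons false w) = u 0 * T (Fin.cons true w) +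
    low (fun s => u s.succ) (fun w => T (Fin.cons false w)) w
  unfold low
  rw [sum_filter, sum_filter, Fin.sum_univ_succ]
  simp only [Fin.cons_zero, Fin.cons_succ, if_true, Fin.update_cons_zero]
  congr 1
  refine sum_congr rfl fun s _ => ?_
  rw [← Fin.cons_update]

theorem hd_true_pow {n : ℕ} (u : Fin (n + 1) → F) (T : (Fin (n + 1) → Bool) → F) (k : ℕ) :
    hd true ((lowL u ^ k) T) = (lowL (fun s => u s.succ) ^ k) (hd true T) := by
  induction k with
  | zero => rfl
  | succ k ih =>
    rw [pow_succ', pow_succ', Module.End.mul_apply, Module.End.mul_apply, hd_true_low, ih]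

theorem hd_false_pow {n : ℕ} (u : Fin (n + 1) → F) (T : (Fin (n + 1) → Bool) → F) (k : ℕ) :
    hd false ((lowL u ^ (k + 1)) T) =
      (((k : F) + 1) * u 0) • (lowL (fun s => u s.succ) ^ k) (hd true T) +
        (lowL (fun s => u s.succ) ^ (k + 1)) (hd false T) := by
  induction k with
  | zero =>
    rw [zero_add, pow_one, pow_one, hd_false_low]
    simp
  | succ k ih =>
    rw [pow_succ' _ (k + 1), pow_succ' _ (k + 1), Module.End.mul_apply, Module.End.mul_apply,
      hd_false_low, ih, hd_true_pow, map_add, map_smul, ← Module.End.mul_apply, ← pow_succ',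
      ← add_assoc, ← add_smul]
    congr 2
    push_cast
    ring

theorem tru_cons {t n : ℕ} (c : Fin (n + 1) → Fin t) (i : Fin t) (x : Bool) (w : Fin n → Bool) :
    tru c i (Fin.cons x w) = (if c 0 = i ∧ x = true then 1 else 0) +
      tru (fun s => c s.succ) i w := by
  unfold tru
  rw [card_filter, card_filter, Fin.sum_univ_succ]
  simp only [Fin.cons_zero, Fin.cons_succ]

theorem fls_cons {t n : ℕ} (c : Fin (n + 1) → Fin t) (i : Fin t) (x : Bool) (w : Fin n → Bool) :
    fls c i (Fin.cons x w) = (if c 0 = i ∧ x = false then 1 else 0) +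
      fls (fun s => c s.succ) i w := by
  unfold fls
  rw [card_filter, card_filter, Fin.sum_univ_succ]
  simp only [Fin.cons_zero, Fin.cons_succ]

theorem tru_add_fls {t n : ℕ} (c : Fin n → Fin t) (i : Fin t) (w : Fin n → Bool) :
    tru c i w + fls c i w = (univ.filter (fun s => c s = i)).card := by
  unfold tru fls
  rw [card_filter, card_filter, card_filter, ← sum_add_distrib]
  refine sum_congr rfl fun s _ => ?_
  cases w s <;> simp

/-- the power `k` of a lowering operator is injective on the tensors with at least `b + k`
letters `true` and `b` letters `false` -/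
theorem weights [CharZero F] {t : ℕ} (i : Fin t) : ∀ (n : ℕ) (c : Fin n → Fin t) (a b k : ℕ)
    (T : (Fin n → Bool) → F), (∀ w, T w ≠ 0 → tru c i w = a ∧ fls c i w = b) → b + k ≤ a →
    (lowL (fun s => if c s = i then 1 else 0) ^ k) T = 0 → T = 0 := by
  intro n
  induction n with
  | zero =>
    intro c a b k T hT hk h0
    by_contra hne
    obtain ⟨w, hw⟩ := Function.ne_iff.1 hne
    obtain ⟨h1, h2⟩ := hT w hw
    have h3 : tru c i w = 0 := by
      unfold tru
      rw [univ_eq_empty]
      rfl
    have hk0 : k = 0 := by omega
    subst hk0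
    exact hne h0
  | succ n ih =>
    intro c a b k T hT hk h0
    by_cases hc : c 0 = i
    · cases k with
      | zero => exact h0
      | succ k =>
        have e1 := hd_true_pow (fun s => if c s = i then (1 : F) else 0) T (k + 1)
        have e0 := hd_false_pow (fun s => if c s = i then (1 : F) else 0) T k
        rw [h0, map_zero] at e1 e0
        simp only [hc, if_true, mul_one] at e0
        have e2 := congrArg (lowL (fun s : Fin n => if c s.succ = i then (1 : F) else 0)) e0
        rw [map_zero, map_add, map_smul, ← Module.End.mul_apply, ← Module.End.mul_apply,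
          ← pow_succ', ← pow_succ', ← e1, smul_zero, zero_add] at e2
        have hT0 : hd false T = 0 := by
          by_cases hb : b = 0
          · by_contra hne
            obtain ⟨w, hw⟩ := Function.ne_iff.1 hne
            obtain ⟨-, h2⟩ := hT (Fin.cons false w) hw
            rw [fls_cons, if_pos ⟨hc, rfl⟩] at h2
            omega
          · refine ih (fun s => c s.succ) a (b - 1) (k + 1 + 1) _ (fun w hw => ?_) (by omega)
              e2.symm
            obtain ⟨h1, h2⟩ := hT (Fin.cons false w) hw
            rw [fls_cons, if_pos ⟨hc, rfl⟩] at h2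
            rw [tru_cons, if_neg (by simp)] at h1
            omega
        have hT1 : hd true T = 0 := by
          refine ih (fun s => c s.succ) (a - 1) b k _ (fun w hw => ?_) (by omega) ?_
          · obtain ⟨h1, h2⟩ := hT (Fin.cons true w) hw
            rw [fls_cons, if_neg (by simp)] at h2
            rw [tru_cons, if_pos ⟨hc, rfl⟩] at h1
            omega
          · rw [hT0, map_zero, add_zero] at e0
            have hk1 : (k : F) + 1 ≠ 0 := by exact_mod_cast Nat.succ_ne_zero k
            exact (smul_eq_zero.1 e0.symm).resolve_left hk1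
        exact eq_of_hd (by rw [hT1, map_zero]) (by rw [hT0, map_zero])
    · have hx : ∀ x : Bool, hd x T = 0 := by
        intro x
        refine ih (fun s => c s.succ) a b k _ (fun w hw => ?_) hk ?_
        · obtain ⟨h1, h2⟩ := hT (Fin.cons x w) hw
          rw [fls_cons, if_neg (fun h => hc h.1)] at h2
          rw [tru_cons, if_neg (fun h => hc h.1)] at h1
          omega
        · cases x
          · cases k with
            | zero =>
              have e0 : T = 0 := h0
              rw [e0]
              rfl
            | succ k =>
              have e0 := hd_false_pow (fun s => if c s = i then (1 : F) else 0) T k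
              rw [h0, map_zero] at e0
              simp only [hc, if_false, mul_zero, zero_smul, zero_add] at e0
              exact e0.symm
          · have e1 := hd_true_pow (fun s => if c s = i then (1 : F) else 0) T k
            rw [h0, map_zero] at e1
            exact e1.symm
      exact eq_of_hd (by rw [hx, map_zero]) (by rw [hx, map_zero])

/-- the factor of a place in `pairingP` -/
def fac {n : ℕ} (m : Fin n → Fin n) (w : Fin n → Bool) (s : Fin n) : F :=
  if s < m s then alt (w s) (w (m s)) else if s = m s then (if w s = false then 1 else 0) else 1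

theorem pairingP_eq {n : ℕ} (m : Fin n → Fin n) (w : Fin n → Bool) :
    (pairingP m w : F) = ∏ s, fac m w s := by
  unfold pairingP
  rw [prod_filter, prod_filter, ← prod_mul_distrib]
  refine prod_congr rfl fun s _ => ?_
  unfold fac
  by_cases h1 : s < m s
  · rw [if_pos h1, if_pos h1, if_neg h1.ne, mul_one]
  · rw [if_neg h1, if_neg h1, one_mul]

theorem alt_self (x : Bool) : (alt x x : F) = 0 := by
  cases x <;> rfl

/-- the products are killed by the lowering operators -/
theorem low_pairingP {n : ℕ} (m : Fin n → Fin n) (u : Fin n → F) (hm : ∀ s, m (m s) = s)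
    (hu : ∀ s, u (m s) = u s) : low u (pairingP m : (Fin n → Bool) → F) = 0 := by
  funext w
  have hz : ∀ s, w s = false → ¬ (w (m s) = false ∧ m s ≠ s) →
      (pairingP m (Function.update w s true) : F) = 0 := by
    intro s hs h
    rw [pairingP_eq]
    by_cases hfix : m s = s
    · refine prod_eq_zero (mem_univ s) ?_
      unfold fac
      rw [hfix, if_neg (lt_irrefl _), if_pos rfl, Function.update_self, if_neg (by simp)]
    · have hms : w (m s) = true := by
        cases h' : w (m s)
        · exact absurd ⟨h', hfix⟩ h
        · rfl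
      rcases lt_or_gt_of_ne hfix with hlt | hlt
      · refine prod_eq_zero (mem_univ (m s)) ?_
        unfold fac
        rw [hm, if_pos hlt, Function.update_self, Function.update_of_ne hfix, hms, alt_self]
      · refine prod_eq_zero (mem_univ s) ?_
        unfold fac
        rw [if_pos hlt, Function.update_self, Function.update_of_ne hfix, hms, alt_self]
  have hopp : ∀ s, w s = false → w (m s) = false → s < m s →
      (pairingP m (Function.update w s true) : F) +
        pairingP m (Function.update w (m s) true) = 0 := by
    intro s hs hms hlt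
    rw [pairingP_eq, pairingP_eq, ← mul_prod_erase univ _ (mem_univ s),
      ← mul_prod_erase univ (fac m (Function.update w (m s) true)) (mem_univ s)]
    have e1 : (fac m (Function.update w s true) s : F) = 1 := by
      unfold fac
      rw [if_pos hlt, Function.update_self, Function.update_of_ne hlt.ne', hms]
      rfl
    have e2 : (fac m (Function.update w (m s) true) s : F) = -1 := by
      unfold fac
      rw [if_pos hlt, Function.update_self, Function.update_of_ne hlt.ne, hs]
      rfl
    have e3 : ∏ r ∈ univ.erase s, (fac m (Function.update w s true) r : F) =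
        ∏ r ∈ univ.erase s, fac m (Function.update w (m s) true) r := by
      refine prod_congr rfl fun r hr => ?_
      have hrs : r ≠ s := (mem_erase.1 hr).1
      unfold fac
      by_cases h1 : r < m r
      · have hr1 : r ≠ m s := by
          rintro rfl
          rw [hm] at h1
          exact absurd h1 (not_lt.2 hlt.le)
        have hr2 : m r ≠ s := fun h => hr1 (by rw [← h, hm])
        have hr3 : m r ≠ m s := fun h => hrs (by rw [← hm r, h, hm])
        rw [if_pos h1, if_pos h1, Function.update_of_ne hrs, Function.update_of_ne hr2,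
          Function.update_of_ne hr1, Function.update_of_ne hr3]
      · rw [if_neg h1, if_neg h1]
        by_cases h2 : r = m r
        · have hr1 : r ≠ m s := by
            intro h
            apply hrs
            rw [h2, h, hm]
          rw [if_pos h2, if_pos h2, Function.update_of_ne hrs, Function.update_of_ne hr1]
        · rw [if_neg h2, if_neg h2]
    rw [e1, e2, e3]
    ring
  change ∑ s ∈ univ.filter (fun s => w s = false), u s * pairingP m (Function.update w s true) = 0
  have hsub : univ.filter (fun s => w s = false ∧ (w (m s) = false ∧ m s ≠ s)) ⊆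
      univ.filter (fun s => w s = false) := by
    intro s hs
    rw [mem_filter] at hs ⊢
    exact ⟨hs.1, hs.2.1⟩
  rw [← sum_subset hsub (fun s hs hs' => by
    rw [mem_filter] at hs hs'
    rw [hz s hs.2 (fun h => hs' ⟨hs.1, hs.2, h⟩), mul_zero])]
  refine sum_involution (fun s _ => m s) ?_ ?_ ?_ ?_
  · intro s hs
    obtain ⟨-, h1, h2, h3⟩ := mem_filter.1 hs
    rw [hu, ← mul_add]
    rcases lt_or_gt_of_ne h3 with hlt | hlt
    · have := hopp (m s) h2 (by rw [hm]; exact h1) (by rw [hm]; exact hlt)
      rw [hm, add_comm] at this
      rw [this, mul_zero]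
    · rw [hopp s h1 h2 hlt, mul_zero]
  · intro s hs _
    exact (mem_filter.1 hs).2.2.2
  · intro s hs
    obtain ⟨-, h1, h2, h3⟩ := mem_filter.1 hs
    exact mem_filter.2 ⟨mem_univ _, h2, by rw [hm]; exact h1, by rw [hm]; exact h3.symm⟩
  · intro s hs
    exact hm s

theorem low_pairingP_colour {t n : ℕ} (c : Fin n → Fin t) (i : Fin t) (m : Fin n → Fin n)
    (hm : IsPartial c m) :
    low (fun s => if c s = i then 1 else 0) (pairingP m : (Fin n → Bool) → F) = 0 :=
  low_pairingP m _ (fun s => (hm s).1) (fun s => by simp only [(hm s).2])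

/-- the multidegrees of the product for a partial matching -/
theorem supp_pairingP {t n : ℕ} (c : Fin n → Fin t) (m : Fin n → Fin n) (hm : IsPartial c m)
    (w : Fin n → Bool) (hw : (pairingP m w : F) ≠ 0) (i : Fin t) :
    fls c i w = tru c i w + (univ.filter (fun s => c s = i ∧ m s = s)).card := by
  rw [pairingP_eq, prod_ne_zero_iff] at hw
  have hfix : ∀ s, m s = s → w s = false := by
    intro s hs
    have h := hw s (mem_univ s)
    unfold fac at h
    rw [hs, if_neg (lt_irrefl _), if_pos rfl] at h
    by_contra hne
    rw [if_neg hne] at h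
    exact h rfl
  have hlt : ∀ s, s < m s → w (m s) = !w s := by
    intro s hs
    have h := hw s (mem_univ s)
    unfold fac at h
    rw [if_pos hs] at h
    cases h1 : w s <;> cases h2 : w (m s)
    · rw [h1, h2] at h
      exact absurd (alt_self _) h
    · rfl
    · rfl
    · rw [h1, h2] at h
      exact absurd (alt_self _) h
  have hne : ∀ s, m s ≠ s → w (m s) = !w s := by
    intro s hs
    rcases lt_or_gt_of_ne hs with h | h
    · have := hlt (m s) (by rw [(hm s).1]; exact h)
      rw [(hm s).1] at this
      rw [this, Bool.not_not]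
    · exact hlt s h
  have e1 : univ.filter (fun s => c s = i ∧ w s = false) =
      (univ.filter (fun s => c s = i ∧ w s = false ∧ m s ≠ s)) ∪
        (univ.filter (fun s => c s = i ∧ m s = s)) := by
    ext s
    simp only [mem_filter, mem_univ, true_and, mem_union]
    constructor
    · rintro ⟨h1, h2⟩
      by_cases h3 : m s = s
      · exact Or.inr ⟨h1, h3⟩
      · exact Or.inl ⟨h1, h2, h3⟩
    · rintro (⟨h1, h2, -⟩ | ⟨h1, h2⟩)
      · exact ⟨h1, h2⟩
      · exact ⟨h1, hfix s h2⟩
  have e2 : Disjoint (univ.filter (fun s => c s = i ∧ w s = false ∧ m s ≠ s))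
        (univ.filter (fun s => c s = i ∧ m s = s)) := by
    rw [disjoint_left]
    intro s h1 h2
    exact (mem_filter.1 h1).2.2.2 (mem_filter.1 h2).2.2
  unfold fls tru
  rw [e1, card_union_of_disjoint e2]
  congr 1
  refine card_nbij' m m ?_ ?_ (fun s _ => (hm s).1) (fun s _ => (hm s).1)
  · intro s hs
    obtain ⟨-, h1, h2, h3⟩ := mem_filter.1 (mem_coe.1 hs)
    refine mem_coe.2 (mem_filter.2 ⟨mem_univ _, by rw [(hm s).2]; exact h1, ?_⟩)
    rw [hne s h3, h2]
    rfl
  · intro s hs
    obtain ⟨-, h1, h2⟩ := mem_filter.1 (mem_coe.1 hs)
    have h3 : m s ≠ s := by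
      intro h3
      rw [hfix s h3] at h2
      exact absurd h2 (by simp)
    refine mem_coe.2 (mem_filter.2 ⟨mem_univ _, by rw [(hm s).2]; exact h1, ?_, ?_⟩)
    · rw [hne s h3, h2]
      rfl
    · rw [(hm s).1]
      exact h3.symm

/-- the place `0` is added as a fixed place -/
def addFix {n : ℕ} (m : Fin n → Fin n) : Fin (n + 1) → Fin (n + 1) :=
  Fin.cons 0 (fun s => (m s).succ)

/-- the place `0` is added and paired with the fixed place `j` -/
def addPair {n : ℕ} (m : Fin n → Fin n) (j : Fin n) : Fin (n + 1) → Fin (n + 1) :=
  Fin.cons j.succ (fun s => if s = j then 0 else (m s).succ)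

theorem addFix_partial {t n : ℕ} (c : Fin (n + 1) → Fin t) (m : Fin n → Fin n)
    (hm : IsPartial (fun s => c s.succ) m) : IsPartial c (addFix m) := by
  intro s
  refine Fin.cases ?_ (fun s => ?_) s
  · exact ⟨rfl, rfl⟩
  · simp only [addFix, Fin.cons_succ]
    exact ⟨by rw [(hm s).1], (hm s).2⟩

theorem addPair_partial {t n : ℕ} (c : Fin (n + 1) → Fin t) (m : Fin n → Fin n) (j : Fin n)
    (hm : IsPartial (fun s => c s.succ) m) (hj : m j = j) (hc : c j.succ = c 0) :
    IsPartial c (addPair m j) := by
  intro s
  refine Fin.cases ?_ (fun s => ?_) s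
  · simp only [addPair, Fin.cons_zero, Fin.cons_succ, if_true]
    exact ⟨trivial, hc⟩
  · by_cases hs : s = j
    · subst hs
      simp only [addPair, Fin.cons_zero, Fin.cons_succ, if_true]
      exact ⟨trivial, hc.symm⟩
    · have hs2 : m s ≠ j := by
        intro h
        apply hs
        rw [← (hm s).1, h, hj]
      simp only [addPair, Fin.cons_succ, if_neg hs, if_neg hs2]
      exact ⟨by rw [(hm s).1], (hm s).2⟩

theorem ext0_pairingP {n : ℕ} (m : Fin n → Fin n) :
    ext0 (pairingP m : (Fin n → Bool) → F) = pairingP (addFix m) := by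
  funext w
  change (if w 0 = false then (pairingP m (Fin.tail w) : F) else 0) = _
  rw [pairingP_eq, pairingP_eq, Fin.prod_univ_succ]
  have e1 : (fac (addFix m) w 0 : F) = if w 0 = false then 1 else 0 := by
    unfold fac addFix
    rw [Fin.cons_zero, if_neg (lt_irrefl _), if_pos rfl]
  have e2 : ∀ s : Fin n, (fac (addFix m) w s.succ : F) = fac m (Fin.tail w) s := by
    intro s
    unfold fac addFix
    simp only [Fin.cons_succ, Fin.succ_lt_succ_iff, Fin.succ_inj]
    rfl
  rw [e1, prod_congr rfl fun s _ => e2 s]
  split_ifs <;> simp

theorem hd_pairingP {n : ℕ} (m : Fin n → Fin n) (j : Fin n) (hj : m j = j) :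
    hd true (pairingP (addPair m j) : (Fin (n + 1) → Bool) → F) = pairingP m := by
  funext w
  change (pairingP (addPair m j) (Fin.cons true w) : F) = _
  rw [pairingP_eq, pairingP_eq, Fin.prod_univ_succ, ← mul_prod_erase univ _ (mem_univ j),
    ← mul_prod_erase univ (fac m w) (mem_univ j)]
  have e1 : (fac (addPair m j) (Fin.cons true w) 0 : F) = fac m w j := by
    unfold fac addPair
    rw [Fin.cons_zero, if_pos (Fin.succ_pos j), Fin.cons_zero, Fin.cons_succ, hj,
      if_neg (lt_irrefl _), if_pos rfl]
    cases w j <;> rfl
  have e2 : (fac (addPair m j) (Fin.cons true w) j.succ : F) = 1 := by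
    unfold fac addPair
    rw [Fin.cons_succ, if_pos rfl, if_neg (by simp), if_neg (Fin.succ_ne_zero j)]
  have e3 : ∀ s ∈ univ.erase j, (fac (addPair m j) (Fin.cons true w) s.succ : F) = fac m w s := by
    intro s hs
    have hs' : s ≠ j := (mem_erase.1 hs).1
    unfold fac addPair
    simp only [Fin.cons_succ, if_neg hs', Fin.succ_lt_succ_iff, Fin.succ_inj]
  rw [e1, e2, prod_congr rfl e3, one_mul]

theorem card_addFix {t n : ℕ} (c : Fin (n + 1) → Fin t) (m : Fin n → Fin n) (i : Fin t) :
    (univ.filter (fun s => c s = i ∧ addFix m s = s)).card =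
      (if c 0 = i then 1 else 0) + (univ.filter (fun s : Fin n => c s.succ = i ∧ m s = s)).card := by
  rw [card_filter, card_filter, Fin.sum_univ_succ]
  simp only [addFix, Fin.cons_zero, Fin.cons_succ, and_true, Fin.succ_inj]

theorem card_addPair {t n : ℕ} (c : Fin (n + 1) → Fin t) (m : Fin n → Fin n) (j : Fin n)
    (hj : m j = j) (hc : c j.succ = c 0) (i : Fin t) :
    (if c 0 = i then 1 else 0) + (univ.filter (fun s => c s = i ∧ addPair m j s = s)).card =
      (univ.filter (fun s : Fin n => c s.succ = i ∧ m s = s)).card := by
  rw [card_filter, card_filter, Fin.sum_univ_succ,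
    ← add_sum_erase univ (fun s : Fin n => if c s.succ = i ∧ m s = s then 1 else 0) (mem_univ j),
    ← add_sum_erase univ (fun s : Fin n => if c s.succ = i ∧ addPair m j s.succ = s.succ
      then 1 else 0) (mem_univ j)]
  have e1 : addPair m j 0 = 0 ↔ False := by
    simp [addPair, Fin.succ_ne_zero]
  have e2 : addPair m j j.succ = j.succ ↔ False := by
    simp [addPair, (Fin.succ_ne_zero j).symm]
  have e3 : ∀ s ∈ univ.erase j, (if c s.succ = i ∧ addPair m j s.succ = s.succ then 1 else 0) =
      if c s.succ = i ∧ m s = s then 1 else 0 := by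
    intro s hs
    have hs' : s ≠ j := (mem_erase.1 hs).1
    simp only [addPair, Fin.cons_succ, if_neg hs', Fin.succ_inj]
  rw [sum_congr rfl e3]
  simp only [e1, e2, and_false, if_false, zero_add, hj, and_true, hc]

/-- the set of the products of given degrees -/
def gens (F : Type) [Field F] {t n : ℕ} (c : Fin n → Fin t) (a b : Fin t → ℕ) :
    Set ((Fin n → Bool) → F) :=
  {P | ∃ m : Fin n → Fin n, IsPartial c m ∧
    (∀ i, (univ.filter (fun s => c s = i ∧ m s = s)).card + a i = b i) ∧ P = pairingP m}

end FUND_

open FUND_

/-- FUNDG -/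
theorem p_FUNDG : T_FUNDG := by
  intro F _ _ t n
  change ∀ (c : Fin n → Fin t) (a b : Fin t → ℕ) (T : (Fin n → Bool) → F),
    (∀ w, T w ≠ 0 → ∀ i, tru c i w = a i ∧ fls c i w = b i) →
    (∀ i, low (fun s => if c s = i then 1 else 0) T = 0) → T ∈ Submodule.span F (gens F c a b)
  induction n with
  | zero =>
    intro c a b T hT hlow
    by_cases hne : T = 0
    · rw [hne]
      exact Submodule.zero_mem _
    obtain ⟨w, hw⟩ := Function.ne_iff.1 hne
    have h0 : ∀ i, a i = 0 ∧ b i = 0 := by
      intro i
      obtain ⟨h1, h2⟩ := hT w hw i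
      have h3 : tru c i w = 0 := by
        unfold tru
        rw [univ_eq_empty]
        rfl
      have h4 : fls c i w = 0 := by
        unfold fls
        rw [univ_eq_empty]
        rfl
      omega
    have hg : (pairingP id : (Fin 0 → Bool) → F) ∈ gens F c a b := by
      refine ⟨id, fun s => s.elim0, fun i => ?_, rfl⟩
      rw [(h0 i).1, (h0 i).2, univ_eq_empty]
      rfl
    have hTe : T = T w • (pairingP id : (Fin 0 → Bool) → F) := by
      funext w'
      rw [Subsingleton.elim w' w, Pi.smul_apply, smul_eq_mul, pairingP_eq, univ_eq_empty,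
        prod_empty, mul_one]
    rw [hTe]
    exact Submodule.smul_mem _ _ (Submodule.subset_span hg)
  | succ n ih =>
    intro c a b T hT hlow
    by_cases hne : T = 0
    · rw [hne]
      exact Submodule.zero_mem _
    obtain ⟨w0, hw0⟩ := Function.ne_iff.1 hne
    have hN : ∀ i, a i + b i = (univ.filter (fun s => c s = i)).card := by
      intro i
      obtain ⟨h1, h2⟩ := hT w0 hw0 i
      rw [← tru_add_fls c i w0, h1, h2]
    have hab : ∀ i, a i ≤ b i := by
      intro i
      by_contra hlt
      push Not at hlt
      apply hne
      refine weights i (n + 1) c (a i) (b i) 1 T (fun w hw => hT w hw i) (by omega) ?_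
      rw [pow_one]
      exact hlow i
    -- degrees and lowering operators on the span
    have hsupp : ∀ Q ∈ Submodule.span F (gens F c a b),
        ∀ w, Q w ≠ 0 → ∀ i, tru c i w = a i ∧ fls c i w = b i := by
      intro Q hQ
      induction hQ using Submodule.span_induction with
      | mem P hP =>
        obtain ⟨m, hm, hmc, rfl⟩ := hP
        intro w hw i
        have h1 := supp_pairingP c m hm w hw i
        have h2 := hmc i
        have h3 := hN i
        rw [← tru_add_fls c i w] at h3
        omega
      | zero =>
        intro w hw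
        exact absurd rfl hw
      | add P Q _ _ hP hQ =>
        intro w hw
        by_cases h : P w = 0
        · refine hQ w (fun h' => hw ?_)
          rw [Pi.add_apply, h, h', add_zero]
        · exact hP w h
      | smul x P _ hP =>
        intro w hw
        refine hP w (fun h' => hw ?_)
        rw [Pi.smul_apply, h', smul_zero]
    have hker : ∀ Q ∈ Submodule.span F (gens F c a b), ∀ i,
        lowL (fun s => if c s = i then (1 : F) else 0) Q = 0 := by
      intro Q hQ i
      have hle : Submodule.span F (gens F c a b) ≤
          LinearMap.ker (lowL (fun s => if c s = i then (1 : F) else 0)) := by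
        rw [Submodule.span_le]
        rintro P ⟨m, hm, -, rfl⟩
        exact LinearMap.mem_ker.2 (low_pairingP_colour c i m hm)
      exact LinearMap.mem_ker.1 (hle hQ)
    -- the part with first letter `true`
    have hQ : ∃ Q ∈ Submodule.span F (gens F c a b), hd true Q = hd true T := by
      by_cases h1 : hd true T = 0
      · exact ⟨0, Submodule.zero_mem _, by rw [h1, map_zero]⟩
      obtain ⟨w1, hw1⟩ := Function.ne_iff.1 h1
      have ha0 : 1 ≤ a (c 0) := by
        obtain ⟨h2, -⟩ := hT (Fin.cons true w1) hw1 (c 0)
        rw [tru_cons, if_pos ⟨rfl, rfl⟩] at h2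
        omega
      have hmem := ih (fun s => c s.succ) (fun i => if i = c 0 then a i - 1 else a i) b
        (hd true T) (fun w hw i => by
          obtain ⟨h2, h3⟩ := hT (Fin.cons true w) hw i
          rw [fls_cons, if_neg (by simp)] at h3
          rw [tru_cons] at h2
          by_cases hi : i = c 0
          · subst hi
            rw [if_pos ⟨rfl, rfl⟩] at h2
            simp only [if_true]
            omega
          · rw [if_neg (fun h => hi h.1.symm)] at h2
            simp only [if_neg hi]
            omega) (fun i => by
          have h2 := hd_true_low (fun s => if c s = i then (1 : F) else 0) T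
          have h3 : lowL (fun s => if c s = i then (1 : F) else 0) T = 0 := hlow i
          rw [h3, map_zero] at h2
          exact h2.symm)
      have hle : Submodule.span F (gens F (fun s => c s.succ)
          (fun i => if i = c 0 then a i - 1 else a i) b) ≤
          (Submodule.span F (gens F c a b)).map (hd true) := by
        rw [Submodule.span_le]
        rintro P ⟨m, hm, hmc, rfl⟩
        have h2 := hmc (c 0)
        simp only [if_true] at h2
        have h3 := hab (c 0)
        have h4 : 0 < (univ.filter (fun s : Fin n => c s.succ = c 0 ∧ m s = s)).card := by omega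
        obtain ⟨j, hj⟩ := card_pos.1 h4
        obtain ⟨-, hj1, hj2⟩ := mem_filter.1 hj
        refine ⟨pairingP (addPair m j), Submodule.subset_span
          ⟨addPair m j, addPair_partial c m j hm hj2 hj1, fun i => ?_, rfl⟩,
          hd_pairingP m j hj2⟩
        have h5 := card_addPair c m j hj2 hj1 i
        have h6 := hmc i
        by_cases hi : i = c 0
        · subst hi
          simp only [if_true] at h5 h6
          omega
        · simp only [if_neg hi, if_neg (Ne.symm hi)] at h5 h6
          omega
      obtain ⟨Q, hQ1, hQ2⟩ := hle hmem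
      exact ⟨Q, hQ1, hQ2⟩
    obtain ⟨Q, hQ1, hQ2⟩ := hQ
    -- the rest
    have hT2 : hd true (T - Q) = 0 := by rw [map_sub, hQ2, sub_self]
    have hext : T - Q = ext0 (hd false (T - Q)) := by
      refine eq_of_hd ?_ ?_
      · rw [hT2]
        rfl
      · rfl
    have hsub : T = Q + (T - Q) := by abel
    rw [hsub]
    refine Submodule.add_mem _ hQ1 ?_
    rw [hext]
    by_cases h0 : hd false (T - Q) = 0
    · rw [h0, map_zero]
      exact Submodule.zero_mem _
    have hT2s : ∀ w, (T - Q) w ≠ 0 → ∀ i, tru c i w = a i ∧ fls c i w = b i := by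
      intro w hw
      by_cases h : T w = 0
      · refine hsupp Q hQ1 w (fun h' => hw ?_)
        rw [Pi.sub_apply, h, h', sub_zero]
      · exact hT w h
    obtain ⟨w1, hw1⟩ := Function.ne_iff.1 h0
    have hb0 : 1 ≤ b (c 0) := by
      obtain ⟨-, h2⟩ := hT2s (Fin.cons false w1) hw1 (c 0)
      rw [fls_cons, if_pos ⟨rfl, rfl⟩] at h2
      omega
    have hmem := ih (fun s => c s.succ) a (fun i => if i = c 0 then b i - 1 else b i)
      (hd false (T - Q)) (fun w hw i => by
        obtain ⟨h2, h3⟩ := hT2s (Fin.cons false w) hw i
        rw [tru_cons, if_neg (by simp)] at h2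
        rw [fls_cons] at h3
        by_cases hi : i = c 0
        · subst hi
          rw [if_pos ⟨rfl, rfl⟩] at h3
          simp only [if_true]
          omega
        · rw [if_neg (fun h => hi h.1.symm)] at h3
          simp only [if_neg hi]
          omega) (fun i => by
        have h2 := hd_false_low (fun s => if c s = i then (1 : F) else 0) (T - Q)
        have h3 : lowL (fun s => if c s = i then (1 : F) else 0) T = 0 := hlow i
        have h4 := hker Q hQ1 i
        rw [map_sub, h3, h4, sub_zero, map_zero, hT2, smul_zero, zero_add] at h2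
        exact h2.symm)
    have hle : (Submodule.span F (gens F (fun s => c s.succ) a
        (fun i => if i = c 0 then b i - 1 else b i))).map ext0 ≤
        Submodule.span F (gens F c a b) := by
      rw [Submodule.map_span_le]
      rintro P ⟨m, hm, hmc, rfl⟩
      rw [ext0_pairingP]
      refine Submodule.subset_span ⟨addFix m, addFix_partial c m hm, fun i => ?_, rfl⟩
      have h5 := card_addFix c m i
      have h6 := hmc i
      by_cases hi : i = c 0
      · subst hi
        simp only [if_true] at h5 h6
        omega
      · simp only [if_neg hi, if_neg (Ne.symm hi)] at h5 h6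
        omega
    exact hle (Submodule.mem_map_of_mem hmem)

/-- FUND -/
theorem p_FUND : T_FUND := by
  intro F _ _ t n c T hT hlow
  by_cases hne : T = 0
  · rw [hne]
    exact Submodule.zero_mem _
  obtain ⟨w0, hw0⟩ := Function.ne_iff.1 hne
  have h := p_FUNDG F t n c (fun i => tru c i w0) (fun i => tru c i w0) T (fun w hw i => by
    have h1 := hT w hw i
    have h2 := hT w0 hw0 i
    have h3 := tru_add_fls c i w
    have h4 := tru_add_fls c i w0
    omega) hlow
  refine (Submodule.span_le.2 ?_ : _ ≤ divisorSpan F c) h
  rintro P ⟨m, hm, hmc, rfl⟩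
  have hfix : ∀ s, m s ≠ s := by
    intro s hs
    have h1 := hmc (c s)
    have h2 : 0 < (univ.filter (fun r => c r = c s ∧ m r = r)).card :=
      card_pos.2 ⟨s, mem_filter.2 ⟨mem_univ _, rfl, hs⟩⟩
    omega
  refine Submodule.subset_span ⟨m, fun s => ⟨(hm s).1, hfix s, (hm s).2⟩, ?_⟩
  funext w
  unfold pairingP pairing
  have h1 : univ.filter (fun s => s = m s) = ∅ := by
    rw [filter_eq_empty_iff]
    intro s _ hs
    exact hfix s hs.symm
  rw [h1, prod_empty, mul_one]

end Pool.Agent.LTC
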