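import Pool.Agent.LTC.Targets

set_option autoImplicit false

namespace Pool.Agent.LTC.MAIN_

open Finset
open scoped BigOperators

/-! ### linearity -/

lemma act_smul {F : Type} [Field F] {n : ℕ} (x a : F) (k : Fin n → F) (T : (Fin n → Bool) → F) :
    act x k (fun w => a * T w) = fun w => a * act x k T w := by
  funext w
  unfold act
  rw [Finset.mul_sum]
  refine Finset.sum_congr rfl fun y _ => ?_
  ring

lemma act_zero {F : Type} [Field F] {n : ℕ} (x : F) (k : Fin n → F) :
    act x k (0 : (Fin n → Bool) → F) = 0 := by
  funext w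
  unfold act
  simp

lemma low_add {F : Type} [Field F] {n : ℕ} (u v : Fin n → F) (T : (Fin n → Bool) → F) :
    low (fun s => u s + v s) T = fun w => low u T w + low v T w := by
  funext w
  unfold low
  rw [← Finset.sum_add_distrib]
  refine Finset.sum_congr rfl fun y _ => ?_
  ring

lemma low_smul {F : Type} [Field F] {n : ℕ} (a : F) (u : Fin n → F) (T : (Fin n → Bool) → F) :
    low (fun s => a * u s) T = fun w => a * low u T w := by
  funext w
  unfold low
  rw [Finset.mul_sum]
  refine Finset.sum_congr rfl fun y _ => ?_
  ring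

lemma low_zero {F : Type} [Field F] {n : ℕ} (T : (Fin n → Bool) → F) :
    low (fun _ => (0 : F)) T = 0 := by
  funext w
  unfold low
  simp

/-! ### cocycles -/

lemma cocycle_one {F G : Type} [Field F] [Group G] {χ : G →* Fˣ} {κ : G → F}
    (h : IsCocycle χ κ) : κ 1 = 0 := by
  have h1 := h 1 1
  rw [mul_one, map_one] at h1
  have h2 : κ 1 = κ 1 + κ 1 := by
    simpa using h1
  linear_combination -h2

lemma cocycle_pow {F G : Type} [Field F] [Group G] {χ : G →* Fˣ} {κ : G → F}
    (h : IsCocycle χ κ) {g : G} (hg : χ g = 1) (m : ℕ) : κ (g ^ m) = m * κ g := by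
  induction m with
  | zero =>
    rw [pow_zero, cocycle_one h]
    simp
  | succ m ih =>
    rw [pow_succ, h (g ^ m) g, ih, map_pow, hg, one_pow]
    push_cast
    ring

/-! ### step 1 -/

/-- the lowering operators with weights in the span of the periods -/
lemma step1 {F G : Type} [Field F] [CharZero F] [Group G] (h1 : T_LOG) (χ : G →* Fˣ) (t n r : ℕ)
    (κ : Fin t → G → F) (hκ : ∀ i, IsCocycle χ (κ i)) (H : Subgroup G) (c : Fin n → Fin t)
    (T : (Fin n → Bool) → F) (hT : IsTateTensor χ κ c H r T) :
    ∀ u ∈ Submodule.span F {v : Fin t → F | ∃ g ∈ H, χ g = 1 ∧ v = fun i => κ i g},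
      low (fun s => u (c s)) T = 0 := by
  intro u hu
  induction hu using Submodule.span_induction with
  | mem v hv =>
    obtain ⟨g, hg, hχ, rfl⟩ := hv
    apply h1 F n
    intro m
    have h2 := hT.2 (g ^ m) (H.pow_mem hg m)
    have h3 : χ (g ^ m) = 1 := by rw [map_pow, hχ, one_pow]
    rw [h3] at h2
    have h4 : (fun s => κ (c s) (g ^ m)) = fun s => (m : F) * κ (c s) g := by
      funext s
      exact cocycle_pow (hκ (c s)) hχ m
    rw [h4] at h2
    simpa using h2
  | zero =>
    exact low_zero T
  | add v w _ _ hv hw =>
    have h2 := low_add (fun s => v (c s)) (fun s => w (c s)) T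
    have h3 : low (fun s => (v + w) (c s)) T = low (fun s => v (c s) + w (c s)) T := rfl
    rw [h3, h2, hv, hw]
    funext w
    simp
  | smul a v _ hv =>
    have h2 := low_smul a (fun s => v (c s)) T
    have h3 : low (fun s => (a • v) (c s)) T = low (fun s => a * v (c s)) T := rfl
    rw [h3, h2, hv]
    funext w
    simp

/-! ### multidegrees -/

lemma card_true_false {n : ℕ} (w : Fin n → Bool) :
    (univ.filter (fun s => w s = true)).card + (univ.filter (fun s => w s = false)).card = n := by
  have h := Finset.card_filter_add_card_filter_not (s := (univ : Finset (Fin n)))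
    (fun s => w s = true)
  have e : (univ.filter (fun s => ¬ w s = true)) = univ.filter (fun s => w s = false) := by
    ext s
    simp
  rw [e, card_univ, Fintype.card_fin] at h
  exact h

lemma sum_tru {t n : ℕ} (c : Fin n → Fin t) (w : Fin n → Bool) :
    ∑ i, tru c i w = (univ.filter (fun s => w s = true)).card := by
  rw [Finset.card_eq_sum_card_fiberwise (f := c) (t := univ) (fun _ _ => Finset.mem_coe.2 (mem_univ _))]
  refine Finset.sum_congr rfl fun i _ => ?_
  unfold tru
  rw [Finset.filter_filter]
  congr 1
  ext s
  simp only [mem_filter, mem_univ, true_and]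
  exact and_comm

lemma sum_fls {t n : ℕ} (c : Fin n → Fin t) (w : Fin n → Bool) :
    ∑ i, fls c i w = (univ.filter (fun s => w s = false)).card := by
  rw [Finset.card_eq_sum_card_fiberwise (f := c) (t := univ) (fun _ _ => Finset.mem_coe.2 (mem_univ _))]
  refine Finset.sum_congr rfl fun i _ => ?_
  unfold fls
  rw [Finset.filter_filter]
  congr 1
  ext s
  simp only [mem_filter, mem_univ, true_and]
  exact and_comm

/-- changing a letter `true` to `false` -/
lemma tru_update_false {t n : ℕ} (c : Fin n → Fin t) (w : Fin n → Bool) (s : Fin n)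
    (hs : w s = true) (i : Fin t) :
    tru c i (Function.update w s false) + (if c s = i then 1 else 0) = tru c i w := by
  unfold tru
  by_cases h : c s = i
  · rw [if_pos h]
    have e : univ.filter (fun s' => c s' = i ∧ w s' = true) =
        insert s (univ.filter (fun s' => c s' = i ∧ Function.update w s false s' = true)) := by
      ext s'
      simp only [mem_filter, mem_univ, true_and, mem_insert]
      by_cases h' : s' = s
      · subst h'
        simp [h, hs]
      · rw [Function.update_of_ne h']
        simp [h']
    rw [e, card_insert_of_notMem]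
    simp
  · rw [if_neg h, add_zero]
    congr 1
    ext s'
    simp only [mem_filter, mem_univ, true_and]
    by_cases h' : s' = s
    · subst h'
      simp [h]
    · rw [Function.update_of_ne h']

lemma fls_update_false {t n : ℕ} (c : Fin n → Fin t) (w : Fin n → Bool) (s : Fin n)
    (hs : w s = true) (i : Fin t) :
    fls c i (Function.update w s false) = fls c i w + (if c s = i then 1 else 0) := by
  unfold fls
  by_cases h : c s = i
  · rw [if_pos h]
    have e : univ.filter (fun s' => c s' = i ∧ Function.update w s false s' = false) =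
        insert s (univ.filter (fun s' => c s' = i ∧ w s' = false)) := by
      ext s'
      simp only [mem_filter, mem_univ, true_and, mem_insert]
      by_cases h' : s' = s
      · subst h'
        simp [h]
      · rw [Function.update_of_ne h']
        simp [h']
    rw [e, card_insert_of_notMem]
    simp [hs]
  · rw [if_neg h, add_zero]
    congr 1
    ext s'
    simp only [mem_filter, mem_univ, true_and]
    by_cases h' : s' = s
    · subst h'
      simp [h]
    · rw [Function.update_of_ne h']

/-- changing a letter `false` to `true` -/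
lemma tru_update_true {t n : ℕ} (c : Fin n → Fin t) (w : Fin n → Bool) (s : Fin n)
    (hs : w s = false) (i : Fin t) :
    tru c i (Function.update w s true) = tru c i w + (if c s = i then 1 else 0) := by
  have h := tru_update_false c (Function.update w s true) s (by simp) i
  rw [Function.update_idem, ← hs, Function.update_eq_self] at h
  exact h.symm

lemma fls_update_true {t n : ℕ} (c : Fin n → Fin t) (w : Fin n → Bool) (s : Fin n)
    (hs : w s = false) (i : Fin t) :
    fls c i (Function.update w s true) + (if c s = i then 1 else 0) = fls c i w := by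
  have h := fls_update_false c (Function.update w s true) s (by simp) i
  rw [Function.update_idem, ← hs, Function.update_eq_self] at h
  exact h.symm

open Classical in
/-- the component of multidegree `(a, b)` -/
noncomputable def comp {F : Type} [Field F] {t n : ℕ} (c : Fin n → Fin t) (a b : Fin t → ℕ)
    (T : (Fin n → Bool) → F) : (Fin n → Bool) → F :=
  fun w => if ∀ i, tru c i w = a i ∧ fls c i w = b i then T w else 0

lemma comp_of {F : Type} [Field F] {t n : ℕ} (c : Fin n → Fin t) {a b : Fin t → ℕ}
    (T : (Fin n → Bool) → F) {w : Fin n → Bool} (h : ∀ i, tru c i w = a i ∧ fls c i w = b i) :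
    comp c a b T w = T w := by
  unfold comp
  rw [if_pos h]

lemma comp_of_not {F : Type} [Field F] {t n : ℕ} (c : Fin n → Fin t) {a b : Fin t → ℕ}
    (T : (Fin n → Bool) → F) {w : Fin n → Bool} (h : ¬ ∀ i, tru c i w = a i ∧ fls c i w = b i) :
    comp c a b T w = 0 := by
  unfold comp
  rw [if_neg h]

/-- the operators of one colour -/
abbrev e {t n : ℕ} (F : Type) [Field F] (c : Fin n → Fin t) (i : Fin t) : Fin n → F :=
  fun s => if c s = i then 1 else 0

lemma rai_comp {F : Type} [Field F] {t n : ℕ} (c : Fin n → Fin t) (a b : Fin t → ℕ)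
    (T : (Fin n → Bool) → F) (i : Fin t) (h : rai (e F c i) T = 0) :
    rai (e F c i) (comp c a b T) = 0 := by
  funext w
  by_cases hP : ∀ j, tru c j w = a j + (if i = j then 1 else 0) ∧
      fls c j w + (if i = j then 1 else 0) = b j
  · have h1 := congrFun h w
    rw [← h1]
    unfold rai
    refine Finset.sum_congr rfl fun s hs => ?_
    have hs' : w s = true := (mem_filter.1 hs).2
    by_cases hc : c s = i
    · rw [comp_of]
      intro j
      have h2 := tru_update_false c w s hs' j
      have h3 := fls_update_false c w s hs' j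
      obtain ⟨h4, h5⟩ := hP j
      rw [hc] at h2 h3
      constructor
      · omega
      · omega
    · simp [e, hc]
  · unfold rai
    show _ = (0 : F)
    apply Finset.sum_eq_zero
    intro s hs
    have hs' : w s = true := (mem_filter.1 hs).2
    by_cases hc : c s = i
    · rw [comp_of_not, mul_zero]
      intro hQ
      apply hP
      intro j
      have h2 := tru_update_false c w s hs' j
      have h3 := fls_update_false c w s hs' j
      obtain ⟨h4, h5⟩ := hQ j
      rw [hc] at h2 h3
      constructor
      · omega
      · omega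
    · simp [e, hc]

/-- step 5 -/
lemma step5 {F : Type} [Field F] [CharZero F] (h4 : T_SLB) {t n : ℕ} (c : Fin n → Fin t)
    (T : (Fin n → Bool) → F) (hb : ∀ w, T w ≠ 0 → Balanced w)
    (hr : ∀ i, rai (e F c i) T = 0) :
    (∀ w, T w ≠ 0 → ∀ i, tru c i w = fls c i w) ∧ ∀ i, low (e F c i) T = 0 := by
  have key : ∀ (a b : Fin t → ℕ), comp c a b T ≠ 0 →
      a = b ∧ ∀ i, low (e F c i) (comp c a b T) = 0 := by
    intro a b hne
    have hsupp : ∀ w, comp c a b T w ≠ 0 → (∀ i, tru c i w = a i ∧ fls c i w = b i) ∧ T w ≠ 0 := by
      intro w hw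
      by_cases hP : ∀ i, tru c i w = a i ∧ fls c i w = b i
      · rw [comp_of c T hP] at hw
        exact ⟨hP, hw⟩
      · exact absurd (comp_of_not c T hP) hw
    have h5 : ∀ i, b i ≤ a i ∧ (a i = b i → low (e F c i) (comp c a b T) = 0) := fun i =>
      h4 F t n c i (a i) (b i) (comp c a b T) (fun w hw => (hsupp w hw).1 i) hne
        (rai_comp c a b T i (hr i))
    obtain ⟨w, hw⟩ := Function.ne_iff.1 hne
    obtain ⟨h6, h7⟩ := hsupp w hw
    have h8 := hb w h7
    unfold Balanced at h8
    rw [← sum_tru c w, ← sum_fls c w] at h8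
    have h9 : ∑ i, b i = ∑ i, a i := by
      rw [← Finset.sum_congr rfl fun i _ => (h6 i).1, ← Finset.sum_congr rfl fun i _ => (h6 i).2]
      exact h8.symm
    have h10 : ∀ i ∈ (univ : Finset (Fin t)), b i = a i :=
      (Finset.sum_eq_sum_iff_of_le (fun i _ => (h5 i).1)).1 h9
    have h11 : a = b := by
      funext i
      exact (h10 i (mem_univ i)).symm
    exact ⟨h11, fun i => (h5 i).2 (h10 i (mem_univ i)).symm⟩
  refine ⟨?_, ?_⟩
  · intro w hw i
    have h1 : comp c (fun i => tru c i w) (fun i => fls c i w) T ≠ 0 := by
      intro h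
      have := congrFun h w
      rw [comp_of c T (fun i => ⟨rfl, rfl⟩)] at this
      exact hw this
    exact congrFun (key _ _ h1).1 i
  · intro i
    funext w
    by_contra hne
    -- all the tensors in the sum have the same multidegree
    set a : Fin t → ℕ := fun j => tru c j w + (if i = j then 1 else 0) with ha
    set b : Fin t → ℕ := fun j => fls c j w - (if i = j then 1 else 0) with hb'
    have h1 : low (e F c i) T w = low (e F c i) (comp c a b T) w := by
      unfold low
      refine Finset.sum_congr rfl fun s hs => ?_
      have hs' : w s = false := (mem_filter.1 hs).2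
      by_cases hc : c s = i
      · rw [comp_of]
        intro j
        have h2 := tru_update_true c w s hs' j
        have h3 := fls_update_true c w s hs' j
        rw [hc] at h2 h3
        constructor
        · rw [h2]
        · rw [hb']
          show _ = fls c j w - _
          omega
      · simp [e, hc]
    by_cases h2 : comp c a b T = 0
    · rw [h2] at h1
      apply hne
      rw [h1]
      unfold low
      simp
    · have h3 := (key a b h2).2 i
      rw [h3] at h1
      exact hne h1

end Pool.Agent.LTC.MAIN_

namespace Pool.Agent.LTC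

open Finset MAIN_
open scoped BigOperators

theorem p_MAIN (h1 : T_LOG) (h2 : T_ACT) (h3 : T_SLA) (h4 : T_SLB) (h5 : T_SEP) (h6 : T_PRB)
    (h7 : T_FUND) : T_MAIN := by
  intro F G _ _ _ χ t n r κ hκ H hg0 hA hB c T hT
  obtain ⟨g0, hg0, hχ0⟩ := hg0
  obtain ⟨a1, a2, a3, a4⟩ := h2 F n
  have hU := h6 F t {v : Fin t → F | ∃ g ∈ H, χ g = 1 ∧ v = fun i => κ i g}
    (fun i => by
      obtain ⟨g, hg, hχ, hk⟩ := hA i
      exact ⟨fun i => κ i g, ⟨g, hg, hχ, rfl⟩, hk⟩)
    (fun i j hij a b hab => hB i j hij a b fun g hg hχ => hab _ ⟨g, hg, hχ, rfl⟩)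
  have hlow := step1 h1 χ t n r κ hκ H c T hT
  -- the element of infinite order
  have hy0 : ((χ g0 : Fˣ) : F) ≠ 0 := Units.ne_zero _
  have hyN : ∀ N : ℕ, 0 < N → ((χ g0 : Fˣ) : F) ^ N ≠ 1 := by
    intro N hN h
    apply hχ0 N hN
    apply Units.ext
    rw [Units.val_pow_eq_pow_val, h, Units.val_one]
  obtain ⟨x, hx⟩ : ∃ x : F, x = ((χ g0 : Fˣ) : F)⁻¹ := ⟨_, rfl⟩
  have hx0 : x ≠ 0 := by
    rw [hx]
    exact inv_ne_zero hy0
  have hxN : ∀ N : ℕ, 0 < N → x ^ N ≠ 1 := by
    intro N hN h
    apply hyN N hN
    rw [hx, inv_pow, inv_eq_one] at h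
    exact h
  have hx1 : x - 1 ≠ 0 := by
    intro h
    apply hxN 1 one_pos
    rw [pow_one]
    linear_combination h
  have hT0 := hT.2 g0 hg0
  rw [← hx] at hT0
  obtain ⟨d, hd⟩ : ∃ d : Fin t → F, d = fun i => κ i g0 * x / (x - 1) := ⟨_, rfl⟩
  obtain ⟨T', hT'⟩ : ∃ T' : (Fin n → Bool) → F, T' = act 1 (fun s => -d (c s)) T := ⟨_, rfl⟩
  -- step 2: the support
  have h8 : act x (fun _ => 0) T' = fun w => x ^ r * T' w := by
    have e1 : act x (fun _ => 0) T' = act x (fun s => x⁻¹ * -d (c s)) T := by
      rw [hT', a1 x 1 (fun _ => 0) (fun s => -d (c s)) T hx0]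
      simp
    have e2 : act 1 (fun s => -d (c s)) (act x (fun s => κ (c s) g0) T) =
        act x (fun s => x⁻¹ * -d (c s)) T := by
      rw [a1 1 x (fun s => -d (c s)) (fun s => κ (c s) g0) T one_ne_zero]
      have e3 : (fun s => -d (c s) + (1 : F)⁻¹ * κ (c s) g0) = fun s => x⁻¹ * -d (c s) := by
        funext s
        rw [hd]
        field_simp
        ring
      rw [e3, one_mul]
    rw [e1, ← e2, hT0, act_smul, ← hT']
  have hbal : ∀ w, T' w ≠ 0 → Balanced w := by
    intro w hw
    have h9 := congrFun h8 w
    rw [a3 x T'] at h9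
    have h10 : x ^ (univ.filter (fun s => w s = true)).card = x ^ r := mul_right_cancel₀ hw h9
    have h11 : (univ.filter (fun s => w s = true)).card = r := by
      rcases lt_trichotomy (univ.filter (fun s => w s = true)).card r with h | h | h
      · exfalso
        apply hxN (r - (univ.filter (fun s => w s = true)).card) (by omega)
        have h12 : x ^ (univ.filter (fun s => w s = true)).card *
            x ^ (r - (univ.filter (fun s => w s = true)).card) =
            x ^ (univ.filter (fun s => w s = true)).card * 1 := by
          rw [← pow_add, Nat.add_sub_cancel' h.le, mul_one, h10]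
        exact mul_left_cancel₀ (pow_ne_zero _ hx0) h12
      · exact h
      · exfalso
        apply hxN ((univ.filter (fun s => w s = true)).card - r) (by omega)
        have h12 : x ^ r * x ^ ((univ.filter (fun s => w s = true)).card - r) = x ^ r * 1 := by
          rw [← pow_add, Nat.add_sub_cancel' h.le, mul_one, h10]
        exact mul_left_cancel₀ (pow_ne_zero _ hx0) h12
    have h13 := card_true_false w
    have h14 := hT.1
    unfold Balanced
    omega
  -- step 3
  have hlow' : ∀ u ∈ Submodule.span F {v : Fin t → F | ∃ g ∈ H, χ g = 1 ∧ v = fun i => κ i g},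
      low (fun s => u (c s)) T' = 0 := by
    intro u hu
    rw [hT', a2, hlow u hu, act_zero]
  -- step 4
  have hrai : ∀ i, rai (e F c i) T' = 0 := by
    have h9 : ∀ w : Fin n → Bool, (fun i => rai (e F c i) T' w) = 0 := by
      intro w
      apply h5 F t _ hU.1 hU.2
      intro u hu hu0
      have h10 := congrFun (h3 F n (fun s => u (c s)) (fun s => hu0 _) T' hbal (hlow' u hu)) w
      have h11 : rai (fun s => (u (c s))⁻¹) T' w = ∑ i, (u i)⁻¹ * rai (e F c i) T' w := by
        unfold rai
        simp_rw [Finset.mul_sum]
        rw [Finset.sum_comm]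
        refine Finset.sum_congr rfl fun s _ => ?_
        rw [Finset.sum_eq_single (c s)]
        · simp [e]
        · intro i _ hi
          simp [e, hi.symm]
        · intro h
          exact absurd (mem_univ _) h
      rw [← h11]
      exact h10
    intro i
    funext w
    exact congrFun (h9 w) i
  -- step 5
  obtain ⟨h9, h10⟩ := step5 h4 c T' hbal hrai
  -- step 6
  have h11 : T' ∈ divisorSpan F c := h7 F t n c T' h9 h10
  have h12 := a4 t c d T' h11
  have h13 : act 1 (fun s => d (c s)) T' = T := by
    rw [hT', a1 1 1 (fun s => d (c s)) (fun s => -d (c s)) T one_ne_zero]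
    have e1 : (fun s => d (c s) + (1 : F)⁻¹ * -d (c s)) = fun _ => 0 := by
      funext s
      simp
    rw [e1, a3]
    funext w
    simp
  rw [← h13, h12]
  exact h11

end Pool.Agent.LTC
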