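import Pool.Agent.LTC.Targets

/-!
# LTC: representation theory of `sl2` on words (targets `T_SLA` and `T_SLB`)
-/

set_option autoImplicit false

namespace Pool.Agent.LTC

open Finset
open scoped BigOperators

namespace SL2_

section abstract_part

variable {F V : Type} [Field F] [CharZero F] [AddCommGroup V] [Module F V]

theorem abs_prim (e f h : V → V) (he0 : e 0 = 0)
    (fs : ∀ (a : F) v, f (a • v) = a • f v)
    (hef : ∀ v, e (f v) = f (e v) + h v) (hhf : ∀ v, h (f v) = f (h v) - (2 : F) • f v)
    {N : ℕ} {v : V} (hnil : f^[N] v = 0) (hv : v ≠ 0) (μ : F) (he : e v = 0)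
    (hh : h v = μ • v) : ∃ m : ℕ, μ = m ∧ f^[m + 1] v = 0 := by
  have hk : ∀ k : ℕ, h (f^[k] v) = (μ - 2 * k) • f^[k] v := by
    intro k
    induction k with
    | zero => simpa using hh
    | succ k ih =>
      rw [Function.iterate_succ_apply', hhf, ih, fs, ← sub_smul]
      congr 1
      push_cast
      ring
  have hf0 : f 0 = 0 := by
    have := fs 0 0
    simpa using this
  have ek : ∀ k : ℕ, e (f^[k + 1] v) = ((k + 1) * (μ - k)) • f^[k] v := by
    intro k
    induction k with
    | zero =>
      rw [Function.iterate_succ_apply', hef, Function.iterate_zero_apply, he, hh, hf0]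
      simp
    | succ k ih =>
      rw [Function.iterate_succ_apply', hef, ih, fs, hk, ← Function.iterate_succ_apply' f k v,
        ← add_smul]
      congr 1
      push_cast
      ring
  classical
  have hex : ∃ k, f^[k] v = 0 := ⟨N, hnil⟩
  have hmin : ∀ m, m < Nat.find hex → f^[m] v ≠ 0 := fun m hm => Nat.find_min hex hm
  have hspec := Nat.find_spec hex
  rcases Nat.eq_zero_or_pos (Nat.find hex) with h0 | h0
  · rw [h0] at hspec
    exact absurd hspec hv
  · obtain ⟨m, hm⟩ : ∃ m, Nat.find hex = m + 1 := ⟨Nat.find hex - 1, by omega⟩
    rw [hm] at hspec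
    have h1 : f^[m] v ≠ 0 := hmin m (by omega)
    refine ⟨m, ?_, hspec⟩
    have h2 := ek m
    rw [hspec, he0] at h2
    have h3 := (smul_eq_zero.mp h2.symm).resolve_right h1
    have h4 : ((m : F) + 1) ≠ 0 := Nat.cast_add_one_ne_zero m
    have h5 := (mul_eq_zero.mp h3).resolve_left h4
    exact sub_eq_zero.mp h5

end abstract_part

section words

variable {F : Type} [Field F] {n : ℕ}

/-- The weight of a word. -/
def wt (p : Fin n → F) (w : Fin n → Bool) : F :=
  (∑ s ∈ univ.filter (fun s => w s = true), p s) -
    ∑ s ∈ univ.filter (fun s => w s = false), p s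

/-- Multiplication by the weight. -/
def hop (p : Fin n → F) (T : (Fin n → Bool) → F) : (Fin n → Bool) → F :=
  fun w => wt p w * T w

theorem filter_update_false {w : Fin n → Bool} {s : Fin n} :
    univ.filter (fun s' => Function.update w s false s' = false) =
      insert s (univ.filter (fun s' => w s' = false)) := by
  ext s'
  simp only [mem_filter, mem_univ, true_and, mem_insert]
  by_cases h : s' = s
  · subst h; simp
  · rw [Function.update_of_ne h]
    simp [h]

theorem filter_update_true {w : Fin n → Bool} {s : Fin n} :
    univ.filter (fun s' => Function.update w s true s' = true) =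
      insert s (univ.filter (fun s' => w s' = true)) := by
  ext s'
  simp only [mem_filter, mem_univ, true_and, mem_insert]
  by_cases h : s' = s
  · subst h; simp
  · rw [Function.update_of_ne h]
    simp [h]

theorem filter_update_true' {w : Fin n → Bool} {s : Fin n} :
    univ.filter (fun s' => Function.update w s true s' = false) =
      (univ.filter (fun s' => w s' = false)).erase s := by
  ext s'
  simp only [mem_filter, mem_univ, true_and, mem_erase]
  by_cases h : s' = s
  · subst h; simp
  · rw [Function.update_of_ne h]
    simp [h]

theorem filter_update_false' {w : Fin n → Bool} {s : Fin n} :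
    univ.filter (fun s' => Function.update w s false s' = true) =
      (univ.filter (fun s' => w s' = true)).erase s := by
  ext s'
  simp only [mem_filter, mem_univ, true_and, mem_erase]
  by_cases h : s' = s
  · subst h; simp
  · rw [Function.update_of_ne h]
    simp [h]

theorem wt_update_true (p : Fin n → F) {w : Fin n → Bool} {s : Fin n} (hs : w s = false) :
    wt p (Function.update w s true) = wt p w + 2 * p s := by
  unfold wt
  rw [filter_update_true, filter_update_true', sum_insert (by simp [hs])]
  have h1 := Finset.add_sum_erase (univ.filter (fun s' => w s' = false)) p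
    (a := s) (by simp [hs])
  rw [← h1]
  ring

theorem wt_update_false (p : Fin n → F) {w : Fin n → Bool} {s : Fin n} (hs : w s = true) :
    wt p (Function.update w s false) = wt p w - 2 * p s := by
  unfold wt
  rw [filter_update_false, filter_update_false', sum_insert (by simp [hs])]
  have h1 := Finset.add_sum_erase (univ.filter (fun s' => w s' = true)) p
    (a := s) (by simp [hs])
  rw [← h1]
  ring

theorem hop_low (p u : Fin n → F) (hp : ∀ s, u s * p s = u s) (T : (Fin n → Bool) → F) :
    hop p (low u T) = low u (hop p T) - (2 : F) • low u T := by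
  funext w
  simp only [hop, low, Pi.sub_apply, Pi.smul_apply, smul_eq_mul, mul_sum, ← sum_sub_distrib]
  refine sum_congr rfl fun s hs => ?_
  rw [wt_update_true p (mem_filter.mp hs).2]
  linear_combination (-2 * T (Function.update w s true)) * hp s

theorem hop_rai (p v : Fin n → F) (hp : ∀ s, v s * p s = v s) (T : (Fin n → Bool) → F) :
    hop p (rai v T) = rai v (hop p T) + (2 : F) • rai v T := by
  funext w
  simp only [hop, rai, Pi.add_apply, Pi.smul_apply, smul_eq_mul, mul_sum, ← sum_add_distrib]
  refine sum_congr rfl fun s hs => ?_
  rw [wt_update_false p (mem_filter.mp hs).2]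
  linear_combination (2 * T (Function.update w s false)) * hp s

theorem comm (u v p : Fin n → F) (hp : ∀ s, p s = v s * u s) (T : (Fin n → Bool) → F) :
    rai v (low u T) = low u (rai v T) + hop p T := by
  funext w
  have h1 : rai v (low u T) w = (∑ s ∈ univ.filter (fun s => w s = true), p s) * T w +
      ∑ s ∈ univ.filter (fun s => w s = true), ∑ s' ∈ univ.filter (fun s => w s = false),
        v s * (u s' * T (Function.update (Function.update w s false) s' true)) := by
    rw [sum_mul, ← sum_add_distrib]
    simp only [rai, low]
    refine sum_congr rfl fun s hs => ?_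
    have hs' := (mem_filter.mp hs).2
    rw [filter_update_false, sum_insert (by simp [hs']), Function.update_idem, mul_add, mul_sum, hp]
    congr 1
    have : Function.update w s true = w := by
      rw [← hs']
      exact Function.update_eq_self s w
    rw [this, mul_assoc]
  have h2 : low u (rai v T) w = (∑ s ∈ univ.filter (fun s => w s = false), p s) * T w +
      ∑ s' ∈ univ.filter (fun s => w s = false), ∑ s ∈ univ.filter (fun s => w s = true),
        v s * (u s' * T (Function.update (Function.update w s false) s' true)) := by
    rw [sum_mul, ← sum_add_distrib]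
    simp only [rai, low]
    refine sum_congr rfl fun s hs => ?_
    have hs' := (mem_filter.mp hs).2
    rw [filter_update_true, sum_insert (by simp [hs']), Function.update_idem, mul_add, mul_sum, hp]
    congr 1
    · have : Function.update w s false = w := by
        rw [← hs']
        exact Function.update_eq_self s w
      rw [this]
      ring
    · refine sum_congr rfl fun s' hs2 => ?_
      have hs2' := (mem_filter.mp hs2).2
      have hne : s ≠ s' := by
        intro h
        rw [h, hs2'] at hs'
        exact absurd hs' (by simp)
      rw [Function.update_comm hne]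
      ring
  rw [Pi.add_apply, h1, h2, sum_comm]
  simp only [hop, wt]
  ring

theorem low_iter_support (u : Fin n → F) (T : (Fin n → Bool) → F) (k : ℕ) :
    ∀ w, (low u)^[k] T w ≠ 0 → k ≤ (univ.filter (fun s => w s = false)).card := by
  induction k with
  | zero => intro w _; exact Nat.zero_le _
  | succ k ih =>
    intro w hw
    rw [Function.iterate_succ_apply'] at hw
    obtain ⟨s, hs, hne⟩ := exists_ne_zero_of_sum_ne_zero hw
    have h1 := ih _ (right_ne_zero_of_mul hne)
    rw [filter_update_true', card_erase_of_mem hs] at h1
    have h2 : 0 < (univ.filter (fun s => w s = false)).card := card_pos.mpr ⟨s, hs⟩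
    omega

theorem rai_iter_support (v : Fin n → F) (T : (Fin n → Bool) → F) (k : ℕ) :
    ∀ w, (rai v)^[k] T w ≠ 0 → k ≤ (univ.filter (fun s => w s = true)).card := by
  induction k with
  | zero => intro w _; exact Nat.zero_le _
  | succ k ih =>
    intro w hw
    rw [Function.iterate_succ_apply'] at hw
    obtain ⟨s, hs, hne⟩ := exists_ne_zero_of_sum_ne_zero hw
    have h1 := ih _ (right_ne_zero_of_mul hne)
    rw [filter_update_false', card_erase_of_mem hs] at h1
    have h2 : 0 < (univ.filter (fun s => w s = true)).card := card_pos.mpr ⟨s, hs⟩
    omega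

theorem low_nil (u : Fin n → F) (T : (Fin n → Bool) → F) : (low u)^[n + 1] T = 0 := by
  funext w
  by_contra h
  have h1 := low_iter_support u T (n + 1) w h
  have h2 := card_filter_le (univ : Finset (Fin n)) (fun s => w s = false)
  rw [card_univ, Fintype.card_fin] at h2
  omega

theorem rai_nil (v : Fin n → F) (T : (Fin n → Bool) → F) : (rai v)^[n + 1] T = 0 := by
  funext w
  by_contra h
  have h1 := rai_iter_support v T (n + 1) w h
  have h2 := card_filter_le (univ : Finset (Fin n)) (fun s => w s = true)
  rw [card_univ, Fintype.card_fin] at h2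
  omega

theorem low_smul (u : Fin n → F) (a : F) (T : (Fin n → Bool) → F) :
    low u (a • T) = a • low u T := by
  funext w
  simp only [low, Pi.smul_apply, smul_eq_mul, mul_sum]
  exact sum_congr rfl fun s _ => by ring

theorem rai_smul (u : Fin n → F) (a : F) (T : (Fin n → Bool) → F) :
    rai u (a • T) = a • rai u T := by
  funext w
  simp only [rai, Pi.smul_apply, smul_eq_mul, mul_sum]
  exact sum_congr rfl fun s _ => by ring

theorem low_zero (u : Fin n → F) : low u 0 = 0 := by
  funext w
  simp [low]

theorem rai_zero (u : Fin n → F) : rai u 0 = 0 := by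
  funext w
  simp [rai]

theorem rai_neg (u : Fin n → F) (T : (Fin n → Bool) → F) : rai u (-T) = -rai u T := by
  funext w
  simp [rai]

end words

end SL2_

open SL2_

theorem p_SLA : T_SLA := by
  intro F _ _ n u hu T hbal hlow
  by_cases hT : T = 0
  · rw [hT, rai_zero]
  set v : Fin n → F := fun s => (u s)⁻¹ with hv
  set p : Fin n → F := fun s => v s * u s with hp
  have hp1 : ∀ s, p s = 1 := fun s => by rw [hp, hv]; exact inv_mul_cancel₀ (hu s)
  have hh : hop p T = 0 := by
    funext w
    simp only [hop, Pi.zero_apply]
    by_cases hw : T w = 0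
    · rw [hw, mul_zero]
    · have h1 := hbal w hw
      unfold Balanced at h1
      have h2 : wt p w = 0 := by
        unfold wt
        simp only [hp1, sum_const, nsmul_eq_mul, mul_one]
        rw [h1, sub_self]
      rw [h2, zero_mul]
  obtain ⟨m, hm, hm'⟩ := abs_prim (F := F) (low u) (rai v) (fun T => - hop p T) (low_zero u)
    (rai_smul v)
    (fun T => by
      rw [comm u v p (fun _ => rfl) T]
      simp)
    (fun T => by
      rw [hop_rai p v (fun s => by rw [hp1, mul_one]), rai_neg]
      abel)
    (rai_nil v T) hT 0 hlow (by rw [hh]; simp)
  have hm0 : m = 0 := by exact_mod_cast hm.symm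
  rw [hm0] at hm'
  exact hm'

theorem p_SLB : T_SLB := by
  intro F _ _ t n c i a b T hsupp hT hrai
  set u : Fin n → F := fun s => if c s = i then 1 else 0 with hu
  have huu : ∀ s, u s * u s = u s := by
    intro s
    rw [hu]
    by_cases h : c s = i <;> simp [h]
  have hcard : ∀ (x : Bool) (w : Fin n → Bool), ∑ s ∈ univ.filter (fun s => w s = x), u s =
      ((univ.filter (fun s => c s = i ∧ w s = x)).card : F) := by
    intro x w
    rw [hu, Finset.sum_ite, sum_const_zero, add_zero, sum_const, nsmul_eq_mul, mul_one,
      filter_filter]
    congr 2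
    ext s
    simp only [mem_filter, mem_univ, true_and]
    tauto
  have hh : hop u T = ((a : F) - b) • T := by
    funext w
    simp only [hop, Pi.smul_apply, smul_eq_mul]
    by_cases hw : T w = 0
    · rw [hw, mul_zero, mul_zero]
    · obtain ⟨h1, h2⟩ := hsupp w hw
      have h3 : wt u w = (a : F) - b := by
        unfold wt
        rw [hcard, hcard]
        unfold tru at h1
        unfold fls at h2
        rw [h1, h2]
      rw [h3]
  obtain ⟨m, hm, hm'⟩ := abs_prim (F := F) (rai u) (low u) (hop u) (rai_zero u)
    (low_smul u)
    (fun T => comm u u u (fun s => (huu s).symm) T)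
    (fun T => hop_low u u huu T)
    (low_nil u T) hT _ hrai hh
  have hab : a = b + m := by
    have h1 : (a : F) = ((b + m : ℕ) : F) := by
      push_cast
      rw [← hm]
      ring
    exact_mod_cast h1
  refine ⟨by omega, fun h => ?_⟩
  have hm0 : m = 0 := by omega
  rw [hm0] at hm'
  exact hm'

end Pool.Agent.LTC
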