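import Pool.Agent.LTC.Targets

set_option autoImplicit false

/-!
# LOG: from the unipotent elements to the lowering operators
-/

namespace Pool.Agent.LTC

open Finset
open scoped BigOperators

namespace LOG_

variable {F : Type} [Field F]

/-- the matrix entries as polynomials in the exponent -/
noncomputable def q (k : F) (a b : Bool) : Polynomial F :=
  Polynomial.C (if a = b then 1 else 0) +
    Polynomial.X * Polynomial.C (if a = false ∧ b = true then k else 0)

theorem q_eval (k : F) (a b : Bool) (m : F) : (q k a b).eval m = rep 1 (m * k) a b := by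
  unfold q
  rw [Polynomial.eval_add, Polynomial.eval_C, Polynomial.eval_mul, Polynomial.eval_X,
    Polynomial.eval_C]
  cases a <;> cases b <;> simp [rep]

theorem q_eval_zero (k : F) (a b : Bool) : (q k a b).eval 0 = if a = b then 1 else 0 := by
  unfold q
  rw [Polynomial.eval_add, Polynomial.eval_C, Polynomial.eval_mul, Polynomial.eval_X, zero_mul,
    add_zero]

theorem q_der (k : F) (a b : Bool) : (Polynomial.derivative (q k a b)).eval 0 =
    if a = false ∧ b = true then k else 0 := by
  unfold q
  rw [Polynomial.derivative_add, Polynomial.derivative_C, zero_add, Polynomial.derivative_mul,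
    Polynomial.derivative_X, Polynomial.derivative_C, mul_zero, add_zero, one_mul,
    Polynomial.eval_C]

/-- the value of the action as a polynomial in the exponent -/
noncomputable def pol {n : ℕ} (k : Fin n → F) (T : (Fin n → Bool) → F) (w : Fin n → Bool) :
    Polynomial F :=
  ∑ y : Fin n → Bool, (∏ s, q (k s) (w s) (y s)) * Polynomial.C (T y)

theorem pol_eval {n : ℕ} (k : Fin n → F) (T : (Fin n → Bool) → F) (w : Fin n → Bool) (m : F) :
    (pol k T w).eval m = act 1 (fun s => m * k s) T w := by
  unfold pol act
  rw [Polynomial.eval_finsetSum]
  refine sum_congr rfl fun y _ => ?_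
  rw [Polynomial.eval_mul, Polynomial.eval_C, Polynomial.eval_prod]
  congr 1
  exact prod_congr rfl fun s _ => q_eval _ _ _ _

theorem one_place {n : ℕ} (k : Fin n → F) (T : (Fin n → Bool) → F) (w : Fin n → Bool)
    (s : Fin n) :
    ∑ y : Fin n → Bool, (∏ a ∈ univ.erase s, if w a = y a then (1 : F) else 0) *
      (if w s = false ∧ y s = true then k s else 0) * T y =
    if w s = false then k s * T (Function.update w s true) else 0 := by
  by_cases hw : w s = false
  · rw [if_pos hw, sum_eq_single (Function.update w s true)]
    · have h1 : (∏ a ∈ univ.erase s, if w a = Function.update w s true a then (1 : F) else 0) =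
          1 := by
        refine prod_eq_one fun a ha => ?_
        rw [Function.update_of_ne (ne_of_mem_erase ha), if_pos rfl]
      rw [h1, one_mul, Function.update_self, if_pos ⟨hw, rfl⟩]
    · intro y _ hy
      by_cases hys : y s = true
      · have h2 : ∃ a, a ≠ s ∧ w a ≠ y a := by
          by_contra h
          push Not at h
          apply hy
          funext a
          by_cases ha : a = s
          · rw [ha, Function.update_self, hys]
          · rw [Function.update_of_ne ha]
            exact (h a ha).symm
        obtain ⟨a, ha, hne⟩ := h2
        rw [prod_eq_zero (mem_erase.2 ⟨ha, mem_univ a⟩) (if_neg hne), zero_mul, zero_mul]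
      · rw [if_neg (fun h => hys h.2), mul_zero, zero_mul]
    · intro h
      exact absurd (mem_univ _) h
  · rw [if_neg hw]
    refine sum_eq_zero fun y _ => ?_
    rw [if_neg (fun h => hw h.1), mul_zero, zero_mul]

theorem pol_der {n : ℕ} (k : Fin n → F) (T : (Fin n → Bool) → F) (w : Fin n → Bool) :
    (Polynomial.derivative (pol k T w)).eval 0 = low k T w := by
  unfold pol low
  rw [Polynomial.derivative_sum, Polynomial.eval_finsetSum, sum_filter]
  have h1 : ∀ y : Fin n → Bool,
      (Polynomial.derivative ((∏ s, q (k s) (w s) (y s)) * Polynomial.C (T y))).eval 0 =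
      ∑ s, (∏ a ∈ univ.erase s, if w a = y a then (1 : F) else 0) *
        (if w s = false ∧ y s = true then k s else 0) * T y := by
    intro y
    rw [Polynomial.derivative_mul, Polynomial.derivative_C, mul_zero, add_zero,
      Polynomial.eval_mul, Polynomial.eval_C, Polynomial.derivative_prod_finset,
      Polynomial.eval_finsetSum, sum_mul]
    refine sum_congr rfl fun s _ => ?_
    rw [Polynomial.eval_mul, Polynomial.eval_prod, q_der]
    congr 2
    exact prod_congr rfl fun a _ => q_eval_zero _ _ _
  rw [sum_congr rfl fun y _ => h1 y, sum_comm]
  exact sum_congr rfl fun s _ => one_place k T w s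

end LOG_

/-- LOG -/
theorem p_LOG : T_LOG := by
  intro F _ _ n k T h
  funext w
  have h1 : LOG_.pol k T w = Polynomial.C (T w) := by
    apply Polynomial.eq_of_infinite_eval_eq
    refine (Set.infinite_range_of_injective (Nat.cast_injective (R := F))).mono ?_
    rintro _ ⟨m, rfl⟩
    show (LOG_.pol k T w).eval (m : F) = (Polynomial.C (T w)).eval (m : F)
    rw [LOG_.pol_eval, h m, Polynomial.eval_C]
  rw [← LOG_.pol_der, h1, Polynomial.derivative_C, Polynomial.eval_zero]
  rfl

end Pool.Agent.LTC
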